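import Mathlib

/-!
# Small families of 2-subcubes meeting every `(3m+2)`-subcube

The construction is layered: for every `r` the coordinates get vectors in `F_2^(r-m+2)`, and a
2-subcube whose set `X` of ones has `r` elements is taken when some nonzero linear functional
vanishes on all vectors of `X`.
-/

set_option autoImplicit false

open Finset

namespace Pool.Agent.K3h56.Cube2

/-- ones of a subcube word -/
def ones {n : ℕ} (D : Fin n → Option Bool) : Finset (Fin n) :=
  univ.filter (fun i => D i = some true)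

/-- flip bits of a subcube word -/
def flips {n : ℕ} (D : Fin n → Option Bool) : Finset (Fin n) :=
  univ.filter (fun i => D i = none)

/-- kernel of a nonzero functional on `F_2^k` has half of the vectors. -/
theorem card_kernel {k : ℕ} (f : Fin k → ZMod 2) (hf : f ≠ 0) :
    (univ.filter (fun w : Fin k → ZMod 2 => ∑ j, f j * w j = 0)).card * 2 = 2 ^ k := by
  classical
  obtain ⟨j0, hj0⟩ : ∃ j, f j ≠ 0 := by
    by_contra h
    push Not at h
    exact hf (funext h)
  have hj1 : f j0 = 1 := by
    have : ∀ a : ZMod 2, a ≠ 0 → a = 1 := by decide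
    exact this _ hj0
  have htot : (univ : Finset (Fin k → ZMod 2)).card = 2 ^ k := by
    simp [Finset.card_univ]
  have hsplit := Finset.card_filter_add_card_filter_not
    (s := (univ : Finset (Fin k → ZMod 2))) (fun w : Fin k → ZMod 2 => ∑ j, f j * w j = 0)
  have hbij : (univ.filter (fun w : Fin k → ZMod 2 => ∑ j, f j * w j = 0)).card =
      (univ.filter (fun w : Fin k → ZMod 2 => ¬ ∑ j, f j * w j = 0)).card := by
    have hadd : ∀ w : Fin k → ZMod 2,
        ∑ j, f j * (w + Pi.single j0 1 : Fin k → ZMod 2) j = ∑ j, f j * w j + 1 := by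
      intro w
      simp only [Pi.add_apply, mul_add, Finset.sum_add_distrib]
      congr 1
      rw [Finset.sum_eq_single j0]
      · simp [hj1]
      · intro b _ hb
        simp [Pi.single_eq_of_ne hb]
      · simp
    have hz : ∀ a : ZMod 2, a = 0 ↔ ¬ (a + 1 = 0) := by decide
    have hz' : ∀ a : ZMod 2, ¬ a = 0 ↔ (a + 1 = 0) := by decide
    have hinv : ∀ w : Fin k → ZMod 2,
        (w + Pi.single j0 1 : Fin k → ZMod 2) + Pi.single j0 1 = w := by
      intro w
      rw [add_assoc]
      have : (Pi.single j0 1 + Pi.single j0 1 : Fin k → ZMod 2) = 0 := by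
        rw [← Pi.single_add]
        have : (1 + 1 : ZMod 2) = 0 := by decide
        rw [this, Pi.single_zero]
      rw [this, add_zero]
    refine Finset.card_bij' (fun w _ => w + Pi.single j0 1) (fun w _ => w + Pi.single j0 1)
      ?_ ?_ ?_ ?_
    · intro w hw
      simp only [mem_filter, mem_univ, true_and] at hw ⊢
      rw [hadd]
      exact (hz _).1 hw
    · intro w hw
      simp only [mem_filter, mem_univ, true_and] at hw ⊢
      rw [hadd]
      exact (hz' _).1 hw
    · intro w _
      exact hinv w
    · intro w _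
      exact hinv w
  rw [htot] at hsplit
  omega

/-- number of assignments of vectors to coordinates for which `f` vanishes on `X`. -/
theorem card_assign {n k : ℕ} (f : Fin k → ZMod 2) (hf : f ≠ 0) (X : Finset (Fin n)) :
    (univ.filter (fun v : Fin n → Fin k → ZMod 2 => ∀ i ∈ X, ∑ j, f j * v i j = 0)).card
      * 2 ^ X.card = (2 ^ k) ^ n := by
  classical
  set K := univ.filter (fun w : Fin k → ZMod 2 => ∑ j, f j * w j = 0) with hK
  have hKc := card_kernel f hf
  rw [← hK] at hKc
  have heq : (univ.filter (fun v : Fin n → Fin k → ZMod 2 => ∀ i ∈ X, ∑ j, f j * v i j = 0)) =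
      Fintype.piFinset (fun i => if i ∈ X then K else univ) := by
    ext v
    simp only [mem_filter, mem_univ, true_and, Fintype.mem_piFinset]
    constructor
    · intro h i
      by_cases hi : i ∈ X
      · rw [if_pos hi, hK, mem_filter]
        exact ⟨mem_univ _, h i hi⟩
      · rw [if_neg hi]; exact mem_univ _
    · intro h i hi
      have := h i
      rw [if_pos hi, hK, mem_filter] at this
      exact this.2
  rw [heq, Fintype.card_piFinset]
  have h1 : ∀ i : Fin n, (if i ∈ X then K else univ : Finset (Fin k → ZMod 2)).card *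
      (if i ∈ X then 2 else 1) = 2 ^ k := by
    intro i
    by_cases hi : i ∈ X
    · simp only [if_pos hi]; exact hKc
    · simp only [if_neg hi, mul_one]
      simp [Finset.card_univ]
  have h2 : (2 : ℕ) ^ X.card = ∏ i : Fin n, (if i ∈ X then 2 else 1) := by
    rw [Finset.prod_ite_mem, Finset.univ_inter, Finset.prod_const]
  rw [h2, ← Finset.prod_mul_distrib, Finset.prod_congr rfl (fun i _ => h1 i)]
  simp

/-- averaging over all assignments. -/
theorem exists_assign {n k r m : ℕ} (hk : k + m = r) (Q : Finset (Fin n → Option Bool))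
    (hQ : ∀ D ∈ Q, (ones D).card = r) :
    ∃ v : Fin n → Fin k → ZMod 2,
      (Q.filter (fun D => ∃ f : Fin k → ZMod 2, f ≠ 0 ∧
        ∀ i ∈ ones D, ∑ j, f j * v i j = 0)).card * 2 ^ m ≤ Q.card := by
  classical
  by_contra hcon
  push Not at hcon
  have hsum : ∑ v : Fin n → Fin k → ZMod 2, Q.card <
      ∑ v : Fin n → Fin k → ZMod 2, (Q.filter (fun D => ∃ f : Fin k → ZMod 2, f ≠ 0 ∧
        ∀ i ∈ ones D, ∑ j, f j * v i j = 0)).card * 2 ^ m :=
    Finset.sum_lt_sum_of_nonempty univ_nonempty (fun v _ => hcon v)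
  have hcardV : (univ : Finset (Fin n → Fin k → ZMod 2)).card = (2 ^ k) ^ n := by
    simp [Finset.card_univ]
  rw [Finset.sum_const, hcardV, smul_eq_mul, ← Finset.sum_mul] at hsum
  have hswap : ∑ v : Fin n → Fin k → ZMod 2, (Q.filter (fun D => ∃ f : Fin k → ZMod 2, f ≠ 0 ∧
        ∀ i ∈ ones D, ∑ j, f j * v i j = 0)).card =
      ∑ D ∈ Q, (univ.filter (fun v : Fin n → Fin k → ZMod 2 => ∃ f : Fin k → ZMod 2, f ≠ 0 ∧
        ∀ i ∈ ones D, ∑ j, f j * v i j = 0)).card := by
    simp only [Finset.card_filter]
    rw [Finset.sum_comm]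
  rw [hswap] at hsum
  have hD : ∀ D ∈ Q, (univ.filter (fun v : Fin n → Fin k → ZMod 2 => ∃ f : Fin k → ZMod 2, f ≠ 0 ∧
        ∀ i ∈ ones D, ∑ j, f j * v i j = 0)).card * 2 ^ m ≤ (2 ^ k) ^ n := by
    intro D hDQ
    have hr := hQ D hDQ
    have hsub : (univ.filter (fun v : Fin n → Fin k → ZMod 2 => ∃ f : Fin k → ZMod 2, f ≠ 0 ∧
        ∀ i ∈ ones D, ∑ j, f j * v i j = 0)) ⊆
        (univ.filter (fun f : Fin k → ZMod 2 => f ≠ 0)).biUnion (fun f =>
          univ.filter (fun v : Fin n → Fin k → ZMod 2 => ∀ i ∈ ones D, ∑ j, f j * v i j = 0)) := by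
      intro v hv
      rw [mem_filter] at hv
      obtain ⟨-, f, hf, hfv⟩ := hv
      rw [mem_biUnion]
      exact ⟨f, by simp [hf], by simp only [mem_filter, mem_univ, true_and]; exact hfv⟩
    have h1 := (Finset.card_le_card hsub).trans Finset.card_biUnion_le
    have h2 : (∑ f ∈ univ.filter (fun f : Fin k → ZMod 2 => f ≠ 0),
        (univ.filter (fun v : Fin n → Fin k → ZMod 2 =>
          ∀ i ∈ ones D, ∑ j, f j * v i j = 0)).card) * 2 ^ r ≤ 2 ^ k * (2 ^ k) ^ n := by
      rw [Finset.sum_mul]
      have h3 : ∀ f ∈ univ.filter (fun f : Fin k → ZMod 2 => f ≠ 0),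
          (univ.filter (fun v : Fin n → Fin k → ZMod 2 =>
          ∀ i ∈ ones D, ∑ j, f j * v i j = 0)).card * 2 ^ r = (2 ^ k) ^ n := by
        intro f hf
        rw [mem_filter] at hf
        have := card_assign f hf.2 (ones D)
        rwa [hr] at this
      rw [Finset.sum_congr rfl h3, Finset.sum_const, smul_eq_mul]
      apply Nat.mul_le_mul_right
      calc _ ≤ (univ : Finset (Fin k → ZMod 2)).card := Finset.card_filter_le _ _
        _ = 2 ^ k := by simp [Finset.card_univ]
    have h4 : (univ.filter (fun v : Fin n → Fin k → ZMod 2 => ∃ f : Fin k → ZMod 2, f ≠ 0 ∧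
        ∀ i ∈ ones D, ∑ j, f j * v i j = 0)).card * 2 ^ r ≤ 2 ^ k * (2 ^ k) ^ n :=
      (Nat.mul_le_mul_right _ h1).trans h2
    rw [← hk, pow_add, ← mul_assoc, mul_comm _ (2 ^ k), mul_assoc] at h4
    exact Nat.le_of_mul_le_mul_left h4 (by positivity)
  have hfin : (∑ D ∈ Q, (univ.filter (fun v : Fin n → Fin k → ZMod 2 =>
      ∃ f : Fin k → ZMod 2, f ≠ 0 ∧
        ∀ i ∈ ones D, ∑ j, f j * v i j = 0)).card) * 2 ^ m ≤ (2 ^ k) ^ n * Q.card := by
    rw [Finset.sum_mul]
    calc _ ≤ ∑ D ∈ Q, (2 ^ k) ^ n := Finset.sum_le_sum hD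
      _ = (2 ^ k) ^ n * Q.card := by rw [Finset.sum_const, smul_eq_mul, mul_comm]
  omega

/-- three functionals vanishing on the vectors of `F`, pairwise sum equal to the third -/
theorem exists_functionals {n : ℕ} (F : Finset (Fin n)) (v : Fin n → Fin (F.card + 2) → ZMod 2) :
    ∃ f g : Fin (F.card + 2) → ZMod 2, f ≠ 0 ∧ g ≠ 0 ∧ f + g ≠ 0 ∧
      (∀ i ∈ F, ∑ j, f j * v i j = 0) ∧ (∀ i ∈ F, ∑ j, g j * v i j = 0) := by
  classical
  let φ : (Fin (F.card + 2) → ZMod 2) → (F → ZMod 2) := fun f i => ∑ j, f j * v i j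
  have hφ : ∀ f g i, φ (f - g) i = φ f i - φ g i := by
    intro f g i
    simp only [φ, Pi.sub_apply, sub_mul, Finset.sum_sub_distrib]
  have hcard : (univ : Finset (F → ZMod 2)).card * 3 <
      (univ : Finset (Fin (F.card + 2) → ZMod 2)).card := by
    simp only [Finset.card_univ, Fintype.card_pi, ZMod.card, prod_const, Fintype.card_coe,
      Fintype.card_fin]
    have : 0 < 2 ^ F.card := by positivity
    rw [pow_add]
    omega
  obtain ⟨y, -, hy⟩ := Finset.exists_lt_card_fiber_of_mul_lt_card_of_maps_to
    (f := φ) (fun a _ => mem_univ (φ a)) hcard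
  obtain ⟨a, b, c, ha, hb, hc, hab, hac, hbc⟩ :=
    Finset.two_lt_card_iff.1 (show 2 < _ from lt_trans (by norm_num) hy)
  rw [mem_filter] at ha hb hc
  refine ⟨a - b, a - c, sub_ne_zero.2 hab, sub_ne_zero.2 hac, ?_, ?_, ?_⟩
  · intro h
    apply hbc
    have h2 : ∀ x y z : ZMod 2, (x - y) + (x - z) = 0 → y = z := by decide
    funext j
    exact h2 (a j) (b j) (c j) (by simpa using congrFun h j)
  · intro i hi
    have := hφ a b ⟨i, hi⟩
    rw [ha.2, hb.2, sub_self] at this
    exact this
  · intro i hi
    have := hφ a c ⟨i, hi⟩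
    rw [ha.2, hc.2, sub_self] at this
    exact this

/-- Every subcube with `3 m + 2` flip bits contains a 2-subcube of the family. -/
theorem exists_hit {n m : ℕ} (C : Fin n → Option Bool) (hC : (flips C).card = 3 * m + 2)
    (v : Fin n → Fin ((ones C).card + 2) → ZMod 2) :
    ∃ D : Fin n → Option Bool, (flips D).card = 2 ∧
      (∀ (i : Fin n) (b : Bool), C i = some b → D i = some b) ∧
      (ones D).card = (ones C).card + m ∧
      ∃ f : Fin ((ones C).card + 2) → ZMod 2, f ≠ 0 ∧ ∀ i ∈ ones D, ∑ j, f j * v i j = 0 := by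
  classical
  obtain ⟨f, g, hf, hg, hfg, hfF, hgF⟩ := exists_functionals (ones C) v
  -- choose the two flip bits
  obtain ⟨P, hPsub, hP⟩ := Finset.exists_subset_card_eq (show 2 ≤ (flips C).card by omega)
  set T := flips C \ P with hT
  have hTc : T.card = 3 * m := by
    rw [hT, Finset.card_sdiff_of_subset hPsub, hC, hP]
    omega
  -- one of the three functionals vanishes on `m` elements of `T`
  obtain ⟨h, hh0, hhF, J, hJT, hJc, hJ⟩ : ∃ h : Fin ((ones C).card + 2) → ZMod 2, h ≠ 0 ∧
      (∀ i ∈ ones C, ∑ j, h j * v i j = 0) ∧ ∃ J ⊆ T, J.card = m ∧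
      ∀ i ∈ J, ∑ j, h j * v i j = 0 := by
    have key : ∀ h : Fin ((ones C).card + 2) → ZMod 2,
        m ≤ (T.filter (fun i => ∑ j, h j * v i j = 0)).card →
        ∃ J ⊆ T, J.card = m ∧ ∀ i ∈ J, ∑ j, h j * v i j = 0 := by
      intro h hh
      obtain ⟨J, hJ1, hJ2⟩ := Finset.exists_subset_card_eq hh
      exact ⟨J, hJ1.trans (Finset.filter_subset _ _), hJ2,
        fun i hi => (mem_filter.1 (hJ1 hi)).2⟩
    have hcover : T ⊆ (T.filter (fun i => ∑ j, f j * v i j = 0)) ∪
        ((T.filter (fun i => ∑ j, g j * v i j = 0)) ∪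
        (T.filter (fun i => ∑ j, (f + g) j * v i j = 0))) := by
      intro i hi
      simp only [mem_union, mem_filter, hi, true_and]
      have h3 : ∑ j, (f + g) j * v i j = ∑ j, f j * v i j + ∑ j, g j * v i j := by
        simp only [Pi.add_apply, add_mul, Finset.sum_add_distrib]
      rw [h3]
      have h4 : ∀ x y : ZMod 2, x = 0 ∨ (y = 0 ∨ x + y = 0) := by decide
      exact h4 _ _
    have hle := (Finset.card_le_card hcover).trans ((Finset.card_union_le _ _).trans
      (Nat.add_le_add_left (Finset.card_union_le _ _) _))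
    rw [hTc] at hle
    rcases (show m ≤ (T.filter (fun i => ∑ j, f j * v i j = 0)).card ∨
      m ≤ (T.filter (fun i => ∑ j, g j * v i j = 0)).card ∨
      m ≤ (T.filter (fun i => ∑ j, (f + g) j * v i j = 0)).card by omega) with h1 | h1 | h1
    · exact ⟨f, hf, hfF, key f h1⟩
    · exact ⟨g, hg, hgF, key g h1⟩
    · refine ⟨f + g, hfg, ?_, key (f + g) h1⟩
      intro i hi
      simp only [Pi.add_apply, add_mul, Finset.sum_add_distrib]
      rw [hfF i hi, hgF i hi, add_zero]
  -- the subcube
  have hnone : ∀ i, i ∈ flips C ↔ C i = none := by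
    intro i; simp [flips]
  have hone : ∀ i, i ∈ ones C ↔ C i = some true := by
    intro i; simp [ones]
  let D : Fin n → Option Bool := fun i =>
    if i ∈ P then none else if i ∈ J then some true else if i ∈ T then some false else C i
  have hPJ : ∀ i ∈ J, i ∉ P := by
    intro i hi
    have := hJT hi
    rw [hT, mem_sdiff] at this
    exact this.2
  have hDflips : flips D = P := by
    ext i
    simp only [flips, mem_filter, mem_univ, true_and, D]
    by_cases h1 : i ∈ P
    · simp [h1]
    · rw [if_neg h1]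
      by_cases h2 : i ∈ J
      · simp [h1, h2]
      · rw [if_neg h2]
        by_cases h3 : i ∈ T
        · simp [h1, h3]
        · rw [if_neg h3]
          constructor
          · intro h4
            exact absurd (by rw [hT, mem_sdiff]; exact ⟨(hnone i).2 h4, h1⟩) h3
          · intro h4; exact absurd h4 h1
  have hDones : ones D = ones C ∪ J := by
    ext i
    rw [mem_union, hone]
    simp only [ones, mem_filter, mem_univ, true_and, D]
    by_cases h1 : i ∈ P
    · rw [if_pos h1]
      constructor
      · intro h; cases h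
      · rintro (h | h)
        · have := (hnone i).1 (hPsub h1)
          rw [this] at h; cases h
        · exact absurd h1 (hPJ i h)
    · rw [if_neg h1]
      by_cases h2 : i ∈ J
      · simp [h2]
      · rw [if_neg h2]
        by_cases h3 : i ∈ T
        · rw [if_pos h3]
          constructor
          · intro h; cases h
          · rintro (h | h)
            · rw [hT, mem_sdiff] at h3
              have := (hnone i).1 h3.1
              rw [this] at h; cases h
            · exact absurd h h2
        · rw [if_neg h3]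
          constructor
          · intro h; exact Or.inl h
          · rintro (h | h)
            · exact h
            · exact absurd h h2
  have hdisj : Disjoint (ones C) J := by
    rw [Finset.disjoint_left]
    intro i hi hiJ
    have h1 := (hone i).1 hi
    have h2 := hJT hiJ
    rw [hT, mem_sdiff] at h2
    have h3 := (hnone i).1 h2.1
    rw [h3] at h1; cases h1
  refine ⟨D, by rw [hDflips, hP], ?_, ?_, h, hh0, ?_⟩
  · intro i b hb
    have h1 : i ∉ P := by
      intro hi
      have := (hnone i).1 (hPsub hi)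
      rw [this] at hb; cases hb
    have h3 : i ∉ T := by
      intro hi
      rw [hT, mem_sdiff] at hi
      have := (hnone i).1 hi.1
      rw [this] at hb; cases hb
    have h2 : i ∉ J := fun hi => h3 (hJT hi)
    simp only [D, if_neg h1, if_neg h2, if_neg h3]
    exact hb
  · rw [hDones, Finset.card_union_of_disjoint hdisj, hJc]
  · intro i hi
    rw [hDones, mem_union] at hi
    rcases hi with hi | hi
    · exact hhF i hi
    · exact hJ i hi

/-- The final family: a set `H` of 2-subcubes meeting every `(3m+2)`-subcube, of relative size at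
most `2 ^ (2 - m)`. -/
theorem exists_family (n m : ℕ) (hm : 2 ≤ m) :
    ∃ H : Finset (Fin n → Option Bool), (∀ D ∈ H, (flips D).card = 2) ∧
      H.card * 2 ^ (m - 2) ≤
        (univ.filter (fun D : Fin n → Option Bool => (flips D).card = 2)).card ∧
      ∀ C : Fin n → Option Bool, (flips C).card = 3 * m + 2 →
        ∃ D ∈ H, (∀ (i : Fin n) (b : Bool), C i = some b → D i = some b) := by
  classical
  set Q := univ.filter (fun D : Fin n → Option Bool => (flips D).card = 2) with hQ
  -- for every number `s` of ones of the big subcube, the layer `r = s + m`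
  have hch : ∀ s : ℕ, ∃ v : Fin n → Fin (s + 2) → ZMod 2,
      ((Q.filter (fun D => (ones D).card = s + m)).filter (fun D => ∃ f : Fin (s + 2) → ZMod 2,
        f ≠ 0 ∧ ∀ i ∈ ones D, ∑ j, f j * v i j = 0)).card * 2 ^ (m - 2) ≤
      (Q.filter (fun D => (ones D).card = s + m)).card := by
    intro s
    exact exists_assign (r := s + m) (by omega) _ (fun D hD => (mem_filter.1 hD).2)
  choose v hv using hch
  let B : ℕ → Finset (Fin n → Option Bool) := fun s =>
    (Q.filter (fun D => (ones D).card = s + m)).filter (fun D => ∃ f : Fin (s + 2) → ZMod 2,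
        f ≠ 0 ∧ ∀ i ∈ ones D, ∑ j, f j * v s i j = 0)
  refine ⟨(range (n + 1)).biUnion B, ?_, ?_, ?_⟩
  · intro D hD
    rw [mem_biUnion] at hD
    obtain ⟨s, -, hs⟩ := hD
    have := (mem_filter.1 (mem_filter.1 hs).1).1
    rw [hQ, mem_filter] at this
    exact this.2
  · calc ((range (n + 1)).biUnion B).card * 2 ^ (m - 2)
        ≤ (∑ s ∈ range (n + 1), (B s).card) * 2 ^ (m - 2) :=
          Nat.mul_le_mul_right _ Finset.card_biUnion_le
      _ = ∑ s ∈ range (n + 1), (B s).card * 2 ^ (m - 2) := Finset.sum_mul _ _ _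
      _ ≤ ∑ s ∈ range (n + 1), (Q.filter (fun D => (ones D).card = s + m)).card :=
          Finset.sum_le_sum (fun s _ => hv s)
      _ = ((range (n + 1)).biUnion (fun s => Q.filter (fun D => (ones D).card = s + m))).card := by
          rw [Finset.card_biUnion]
          intro s _ t _ hst
          rw [Function.onFun, Finset.disjoint_left]
          intro D h1 h2
          have h3 := (mem_filter.1 h1).2
          have h4 := (mem_filter.1 h2).2
          omega
      _ ≤ Q.card := by
          apply Finset.card_le_card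
          intro D hD
          rw [mem_biUnion] at hD
          obtain ⟨s, -, hs⟩ := hD
          exact (mem_filter.1 hs).1
  · intro C hC
    obtain ⟨D, hD2, hDC, hDo, f, hf, hfv⟩ := exists_hit C hC (v (ones C).card)
    refine ⟨D, ?_, hDC⟩
    rw [mem_biUnion]
    refine ⟨(ones C).card, ?_, ?_⟩
    · rw [mem_range]
      have : (ones C).card ≤ n := by
        calc (ones C).card ≤ (univ : Finset (Fin n)).card := Finset.card_le_card (subset_univ _)
          _ = n := by simp
      omega
    · simp only [B, mem_filter]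
      exact ⟨⟨by rw [hQ, mem_filter]; exact ⟨mem_univ _, hD2⟩, hDo⟩, f, hf, hfv⟩

end Pool.Agent.K3h56.Cube2
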