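import Pool.Agent.K3h56.So3Dim

/-!
# The kernel inequality on `SO(3)` (analytic half of the LPS spectral gap)
-/

set_option autoImplicit false
set_option linter.unusedSectionVars false

open Matrix MeasureTheory Filter Topology

namespace Pool.Agent.K3h56

open Pool.Agent.K3h92

section moment

variable {V : Type} [NormedAddCommGroup V] [InnerProductSpace ℝ V] [FiniteDimensional ℝ V]

lemma cont_coef (R : SORep (Fin 3) V) (v u : V) :
    Continuous (fun g : SO (Fin 3) => (inner ℝ (R.ρ g v) u : ℝ)) :=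
  (R.cont v).inner continuous_const

/-- The second moment operator. -/
noncomputable def TT (R : SORep (Fin 3) V) (v : V) : V →ₗ[ℝ] V where
  toFun u := ∫ g, (inner ℝ (R.ρ g v) u : ℝ) • R.ρ g v ∂μ3
  map_add' := by
    intro u u'
    have e := integral_add (integrable_of_cont ((cont_coef R v u).smul (R.cont v)))
      (integrable_of_cont ((cont_coef R v u').smul (R.cont v)))
    refine Eq.trans ?_ e
    refine integral_congr_ae (ae_of_all _ fun g => ?_)
    simp [inner_add_right, add_smul]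
  map_smul' := by
    intro r u
    simp only [RingHom.id_apply]
    rw [← integral_smul]
    refine integral_congr_ae (ae_of_all _ fun g => ?_)
    simp [inner_smul_right, mul_smul]

lemma inner_TT (R : SORep (Fin 3) V) (v u u' : V) :
    inner ℝ u' (TT R v u) = ∫ g, (inner ℝ (R.ρ g v) u : ℝ) * inner ℝ (R.ρ g v) u' ∂μ3 := by
  have hi : Integrable (fun x => (inner ℝ (R.ρ x v) u : ℝ) • R.ρ x v) μ3 :=
    integrable_of_cont ((cont_coef R v u).smul (R.cont v))
  have h := ContinuousLinearMap.integral_comp_comm (innerSL ℝ u') hi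
  simp only [innerSL_apply_apply, inner_smul_right] at h
  refine h.symm.trans ?_
  refine integral_congr_ae (ae_of_all _ fun g => ?_)
  simp only [real_inner_comm]

lemma TT_symm (R : SORep (Fin 3) V) (v u u' : V) :
    inner ℝ (TT R v u) u' = inner ℝ u (TT R v u') := by
  rw [real_inner_comm, inner_TT, inner_TT]
  refine integral_congr_ae (ae_of_all _ fun g => ?_)
  simp only []
  ring

lemma inner_ρ (R : SORep (Fin 3) V) (h : SO (Fin 3)) (u u' : V) :
    inner ℝ (R.ρ h u) (R.ρ h u') = (inner ℝ u u' : ℝ) := by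
  have h1 := R.norm_ρ h (u + u')
  have h2 := R.norm_ρ h u
  have h3 := R.norm_ρ h u'
  rw [map_add] at h1
  have e1 := norm_add_sq_real (R.ρ h u) (R.ρ h u')
  have e2 := norm_add_sq_real u u'
  rw [h1, h2, h3] at e1
  linarith

lemma inner_ρ_inv (R : SORep (Fin 3) V) (h : SO (Fin 3)) (u u' : V) :
    inner ℝ (R.ρ h⁻¹ u) u' = (inner ℝ u (R.ρ h u') : ℝ) := by
  rw [← inner_ρ R h (R.ρ h⁻¹ u) u']
  congr 1
  rw [← Module.End.mul_apply, ← map_mul, mul_inv_cancel, map_one]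
  rfl

lemma TT_ρ (R : SORep (Fin 3) V) (v : V) (h : SO (Fin 3)) (u : V) :
    TT R v (R.ρ h u) = R.ρ h (TT R v u) := by
  have h1 : TT R v (R.ρ h u) = ∫ g, (inner ℝ (R.ρ g v) (R.ρ h u) : ℝ) • R.ρ g v ∂μ3 := rfl
  have h2 : ∫ g, (fun x => (inner ℝ (R.ρ x v) (R.ρ h u) : ℝ) • R.ρ x v) (h * g) ∂μ3 =
      ∫ g, (inner ℝ (R.ρ g v) (R.ρ h u) : ℝ) • R.ρ g v ∂μ3 :=
    integral_mul_left_eq_self (μ := μ3)
      (fun x => (inner ℝ (R.ρ x v) (R.ρ h u) : ℝ) • R.ρ x v) h
  rw [h1, ← h2]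
  have hi : Integrable (fun x => (inner ℝ (R.ρ x v) u : ℝ) • R.ρ x v) μ3 :=
    integrable_of_cont ((cont_coef R v u).smul (R.cont v))
  have h3 := ContinuousLinearMap.integral_comp_comm (LinearMap.toContinuousLinearMap (R.ρ h)) hi
  refine Eq.trans ?_ h3
  refine integral_congr_ae (ae_of_all _ fun g => ?_)
  simp only [map_mul, LinearMap.coe_toContinuousLinearMap', map_smul, Module.End.mul_apply]
  rw [inner_ρ]

lemma TT_A (R : SORep (Fin 3) V) (v : V) (a b : Fin 3) (hab : a ≠ b) (u : V) :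
    TT R v (R.A a b u) = R.A a b (TT R v u) := by
  have h1 := R.deriv a b hab u
  have h2 := R.deriv a b hab (TT R v u)
  have h3 : HasDerivAt (fun t : ℝ => TT R v (R.ρ (rot a b hab t) u)) (TT R v (R.A a b u)) 0 :=
    (LinearMap.toContinuousLinearMap (TT R v)).hasFDerivAt.comp_hasDerivAt 0 h1
  have h4 : (fun t : ℝ => TT R v (R.ρ (rot a b hab t) u)) =
      fun t : ℝ => R.ρ (rot a b hab t) (TT R v u) := by
    funext t; exact TT_ρ R v _ u
  rw [h4] at h3
  exact h3.unique h2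

/-- The triple of generators. -/
lemma triple_of (R : SORep (Fin 3) V) (c : ℝ)
    (hcas : ∀ v, R.A 0 1 (R.A 0 1 v) + R.A 1 2 (R.A 1 2 v) + R.A 2 0 (R.A 2 0 v) = -c • v)
    (E : Submodule ℝ V) (h01 : ∀ v ∈ E, R.A 0 1 v ∈ E) (h12 : ∀ v ∈ E, R.A 1 2 v ∈ E)
    (h20 : ∀ v ∈ E, R.A 2 0 v ∈ E) : Triple (R.A 0 1) (R.A 1 2) (R.A 2 0) c E where
  sJ := R.skew 0 1
  sP := R.skew 1 2
  sQ := R.skew 2 0
  cas := hcas
  b1 := by
    intro v
    have h := congrArg (fun T : V →ₗ[ℝ] V => T v) (R.br 0 1 1 2)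
    have h2 := congrArg (fun T : V →ₗ[ℝ] V => T v) (R.anti 2 0)
    simp at h h2
    rw [h2] at h
    rw [sub_eq_iff_eq_add] at h
    rw [h]; abel
  b2 := by
    intro v
    have h := congrArg (fun T : V →ₗ[ℝ] V => T v) (R.br 1 2 2 0)
    have h2 := congrArg (fun T : V →ₗ[ℝ] V => T v) (R.anti 0 1)
    simp at h h2
    rw [h2] at h
    rw [sub_eq_iff_eq_add] at h
    rw [h]; abel
  b3 := by
    intro v
    have h := congrArg (fun T : V →ₗ[ℝ] V => T v) (R.br 2 0 0 1)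
    have h2 := congrArg (fun T : V →ₗ[ℝ] V => T v) (R.anti 1 2)
    simp at h h2
    rw [h2] at h
    rw [sub_eq_iff_eq_add] at h
    rw [h]; abel
  eJ := h01
  eP := h12
  eQ := h20

/-- Second moment of a matrix coefficient. -/
lemma moment_bound (R : SORep (Fin 3) V) (c : ℝ) (hc : 0 < c)
    (hcas : ∀ v, R.A 0 1 (R.A 0 1 v) + R.A 1 2 (R.A 1 2 v) + R.A 2 0 (R.A 2 0 v) = -c • v)
    (v : V) (hv : ‖v‖ = 1) :
    Real.sqrt (c / 3) * ∫ g, (inner ℝ (R.ρ g v) v : ℝ) ^ 2 ∂μ3 ≤ 1 := by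
  have hv0 : v ≠ 0 := by
    intro h; rw [h, norm_zero] at hv; norm_num at hv
  have hne : (⊤ : Submodule ℝ V) ≠ ⊥ := by
    intro h
    have : v ∈ (⊥ : Submodule ℝ V) := h ▸ Submodule.mem_top
    exact hv0 ((Submodule.mem_bot ℝ).1 this)
  obtain ⟨l, u, -, hu0, hu, hmax⟩ := exists_max_eig (TT R v) (TT_symm R v) ⊤
    (fun _ _ => Submodule.mem_top) hne
  set E : Submodule ℝ V := Module.End.eigenspace (TT R v : Module.End ℝ V) l with hE
  have hmem : ∀ x, x ∈ E ↔ TT R v x = l • x := by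
    intro x; rw [hE, Module.End.mem_eigenspace_iff]
  have hinv : ∀ a b : Fin 3, a ≠ b → ∀ x ∈ E, R.A a b x ∈ E := by
    intro a b hab x hx
    rw [hmem] at hx ⊢
    rw [TT_A R v a b hab, hx, map_smul]
  have hEne : E ≠ ⊥ := by
    intro h
    have : u ∈ E := (hmem u).2 hu
    rw [h] at this
    exact hu0 ((Submodule.mem_bot ℝ).1 this)
  have hdim := dim_lower hc (triple_of R c hcas E (hinv 0 1 (by decide)) (hinv 1 2 (by decide))
    (hinv 2 0 (by decide))) hEne
  -- trace bound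
  have htr : l * Module.finrank ℝ E ≤ 1 := by
    set e := stdOrthonormalBasis ℝ E with he
    have hon : Orthonormal ℝ (fun i => (e i : V)) := by
      have := e.orthonormal.comp_linearIsometry E.subtypeₗᵢ
      exact this
    have h1 : ∀ i, inner ℝ (e i : V) (TT R v (e i)) = l := by
      intro i
      rw [(hmem _).1 (e i).2, inner_smul_right]
      have := hon.1 i
      rw [real_inner_self_eq_norm_sq, this]
      ring
    have h2 : l * Module.finrank ℝ E = ∑ i, inner ℝ (e i : V) (TT R v (e i)) := by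
      simp only [h1]
      simp
      ring
    rw [h2]
    simp only [inner_TT]
    have hie : ∀ i, Integrable (fun g => (inner ℝ (R.ρ g v) (e i : V) : ℝ) *
        inner ℝ (R.ρ g v) (e i : V)) μ3 := fun i => integrable_of_cont
      ((cont_coef R v (e i)).mul (cont_coef R v (e i)))
    rw [← integral_finsetSum _ (fun i _ => hie i)]
    have h3 : ∀ g : SO (Fin 3), ∑ i, (inner ℝ (R.ρ g v) (e i : V) : ℝ) *
        inner ℝ (R.ρ g v) (e i : V) ≤ 1 := by
      intro g
      have hb := hon.sum_inner_products_le (x := R.ρ g v) (s := Finset.univ)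
      rw [R.norm_ρ, hv] at hb
      calc ∑ i, (inner ℝ (R.ρ g v) (e i : V) : ℝ) * inner ℝ (R.ρ g v) (e i : V)
          = ∑ i, ‖(inner ℝ (e i : V) (R.ρ g v) : ℝ)‖ ^ 2 := by
            refine Finset.sum_congr rfl fun i _ => ?_
            rw [Real.norm_eq_abs, sq_abs, real_inner_comm]; ring
        _ ≤ 1 := by simpa using hb
    calc ∫ g, ∑ i, (inner ℝ (R.ρ g v) (e i : V) : ℝ) * inner ℝ (R.ρ g v) (e i : V) ∂μ3
        ≤ ∫ g, (1 : ℝ) ∂μ3 := by
          refine integral_mono (integrable_of_cont ?_) (integrable_const _) h3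
          exact continuous_finsetSum _ fun i _ => (cont_coef R v (e i)).mul (cont_coef R v (e i))
      _ = 1 := by simp
  have hI : ∫ g, (inner ℝ (R.ρ g v) v : ℝ) ^ 2 ∂μ3 ≤ l := by
    have h := hmax v Submodule.mem_top
    rw [real_inner_comm, inner_TT, hv] at h
    refine le_trans (le_of_eq ?_) (h.trans (by linarith))
    refine integral_congr_ae (ae_of_all _ fun g => ?_)
    simp only []
    ring
  have hI0 : 0 ≤ ∫ g, (inner ℝ (R.ρ g v) v : ℝ) ^ 2 ∂μ3 :=
    integral_nonneg fun g => sq_nonneg _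
  have hs0 : 0 ≤ Real.sqrt (c / 3) := Real.sqrt_nonneg _
  calc Real.sqrt (c / 3) * ∫ g, (inner ℝ (R.ρ g v) v : ℝ) ^ 2 ∂μ3
      ≤ Module.finrank ℝ E * l := by
        apply mul_le_mul hdim hI hI0 (by positivity)
    _ ≤ 1 := by linarith

end moment

section kernel

/-- Tensor power trick. -/
lemma tensor_cs {I κ : Type} [Fintype I] [Fintype κ] [DecidableEq κ] (a b : I → κ → ℝ) (n : ℕ) :
    (∑ i, ∑ j, (∑ k, a i k * b j k) ^ n) ^ 2 ≤
      (∑ i, ∑ j, (∑ k, a i k * a j k) ^ n) * (∑ i, ∑ j, (∑ k, b i k * b j k) ^ n) := by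
  have key : ∀ (a b : I → κ → ℝ), ∑ i, ∑ j, (∑ k, a i k * b j k) ^ n =
      ∑ f : Fin n → κ, (∑ i, ∏ x, a i (f x)) * (∑ j, ∏ x, b j (f x)) := by
    intro a b
    have h1 : ∀ i j, (∑ k, a i k * b j k) ^ n = ∑ f : Fin n → κ,
        (∏ x, a i (f x)) * ∏ x, b j (f x) := by
      intro i j
      have h2 : (∑ k, a i k * b j k) ^ n = ∏ _x : Fin n, ∑ k, a i k * b j k := by simp
      rw [h2, Finset.prod_univ_sum]
      simp only [Fintype.piFinset_univ, Finset.prod_mul_distrib]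
    simp only [h1]
    simp only [Finset.sum_mul_sum]
    rw [Finset.sum_comm]
    refine (Finset.sum_congr rfl fun j _ => Finset.sum_comm).trans ?_
    rw [Finset.sum_comm]
    refine Finset.sum_congr rfl fun f _ => ?_
    rw [Finset.sum_comm]
  rw [key a b, key a a, key b b]
  refine (Finset.sum_mul_sq_le_sq_mul_sq _ _ _).trans (le_of_eq ?_)
  simp only [sq]

lemma trace_mul_transpose (x y : Matrix (Fin 3) (Fin 3) ℝ) :
    (x * yᵀ).trace = ∑ p : Fin 3 × Fin 3, x p.1 p.2 * y p.1 p.2 := by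
  rw [Fintype.sum_prod_type]
  simp [Matrix.trace, Matrix.mul_apply]

/-- vector attached to an element. -/
def vec (x : SO (Fin 3)) : Option (Fin 3 × Fin 3) → ℝ
  | none => 1
  | some p => (x : Matrix (Fin 3) (Fin 3) ℝ) p.1 p.2

lemma vec_inner (x y : SO (Fin 3)) : ∑ k, vec x k * vec y k = 4 * xv (x * y⁻¹) := by
  rw [Fintype.sum_option, xv]
  have h : ((x * y⁻¹ : SO (Fin 3)) : Matrix (Fin 3) (Fin 3) ℝ) =
      (x : Matrix (Fin 3) (Fin 3) ℝ) * (y : Matrix (Fin 3) (Fin 3) ℝ)ᵀ := by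
    rw [← SO.coe_inv]; rfl
  rw [h, trace_mul_transpose]
  simp only [vec]
  ring

lemma kernel_le {I : Type} [Fintype I] (w : I → SO (Fin 3)) (n : ℕ) (x : SO (Fin 3)) :
    |∑ i, ∑ j, xv (w i * x * (w j)⁻¹) ^ n| ≤ ∑ i, ∑ j, xv (w i * (w j)⁻¹) ^ n := by
  have h := tensor_cs (fun i => vec (w i * x)) (fun j => vec (w j)) n
  simp only [vec_inner] at h
  have e : ∀ i j, w i * x * (w j * x)⁻¹ = w i * (w j)⁻¹ := by
    intro i j
    group
  simp only [e, mul_pow, ← Finset.mul_sum] at h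
  have h4 : (0:ℝ) < 4 ^ n := by positivity
  have hK : 0 ≤ ∑ i, ∑ j, xv (w i * (w j)⁻¹) ^ n :=
    Finset.sum_nonneg fun i _ => Finset.sum_nonneg fun j _ => pow_nonneg (xv_nonneg_le _).1 _
  have h5 : (4 ^ n * ∑ i, ∑ j, xv (w i * x * (w j)⁻¹) ^ n) ^ 2 ≤
      (4 ^ n * ∑ i, ∑ j, xv (w i * (w j)⁻¹) ^ n) ^ 2 := by
    rw [mul_pow]
    refine h.trans (le_of_eq ?_)
    ring
  have h6 := abs_le_of_sq_le_sq' h5 (by positivity)
  rw [abs_le]
  constructor
  · have := h6.1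
    have h7 : 4 ^ n * (-(∑ i, ∑ j, xv (w i * (w j)⁻¹) ^ n)) ≤
        4 ^ n * ∑ i, ∑ j, xv (w i * x * (w j)⁻¹) ^ n := by linarith
    exact le_of_mul_le_mul_left h7 h4
  · exact le_of_mul_le_mul_left h6.2 h4

end kernel

/-- **The kernel inequality.** -/
theorem so3_analytic (V : Type) [NormedAddCommGroup V] [InnerProductSpace ℝ V]
    [FiniteDimensional ℝ V] (R : SORep (Fin 3) V) (c : ℝ) (hc : 0 < c)
    (hcas : ∀ v, R.A 0 1 (R.A 0 1 v) + R.A 1 2 (R.A 1 2 v) + R.A 2 0 (R.A 2 0 v) = -c • v)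
    (I : Type) [Fintype I] (w : I → SO (Fin 3)) (s : ℝ) (v : V) (hv : ‖v‖ = 1)
    (hs : ∑ i, R.ρ (w i) v = s • v) (n : ℕ) (hn : 2 * c ≤ n + 1) (hn1 : 1 ≤ n) :
    s ^ 2 * (c / 3) ^ (1 / 4 : ℝ) ≤
      4 * (n + 1) * Real.sqrt n * ∑ i, ∑ j, ker4 n (w i * (w j)⁻¹) := by
  set K1 : ℝ := ∑ i, ∑ j, ker4 n (w i * (w j)⁻¹) with hK1
  have hK1' : K1 = ∑ i, ∑ j, xv (w i * (w j)⁻¹) ^ n := rfl
  have hK0 : 0 ≤ K1 := by
    rw [hK1']
    exact Finset.sum_nonneg fun i _ => Finset.sum_nonneg fun j _ => pow_nonneg (xv_nonneg_le _).1 _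
  -- step 1
  have hcv : Continuous (fun g : SO (Fin 3) => (inner ℝ v (R.ρ g v) : ℝ)) :=
    continuous_const.inner (R.cont v)
  have h1 := mult_lower R c hc hcas v hv n hn
  -- step 2: s^2 * ∫ x^n φ = ∫ K φ
  have h2 : s ^ 2 * ∫ g, xv g ^ n * inner ℝ v (R.ρ g v) ∂μ3 =
      ∫ x, (∑ i, ∑ j, xv (w i * x * (w j)⁻¹) ^ n) * inner ℝ v (R.ρ x v) ∂μ3 := by
    have e1 : ∀ g, s ^ 2 * (xv g ^ n * (inner ℝ v (R.ρ g v) : ℝ)) =
        ∑ i, ∑ j, xv g ^ n * (inner ℝ v (R.ρ ((w i)⁻¹ * g * w j) v) : ℝ) := by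
      intro g
      have e2 : ∀ i j, (inner ℝ v (R.ρ ((w i)⁻¹ * g * w j) v) : ℝ) =
          inner ℝ (R.ρ (w i) v) (R.ρ g (R.ρ (w j) v)) := by
        intro i j
        rw [map_mul, map_mul]
        simp only [Module.End.mul_apply]
        rw [real_inner_comm, inner_ρ_inv, real_inner_comm]
      simp only [e2]
      have e3 : ∑ i, ∑ j, xv g ^ n * (inner ℝ (R.ρ (w i) v) (R.ρ g (R.ρ (w j) v)) : ℝ) =
          xv g ^ n * inner ℝ (∑ i, R.ρ (w i) v) (R.ρ g (∑ j, R.ρ (w j) v)) := by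
        rw [map_sum, sum_inner, Finset.mul_sum]
        refine Finset.sum_congr rfl fun i _ => ?_
        rw [inner_sum, Finset.mul_sum]
      rw [e3, hs, map_smul, inner_smul_left, inner_smul_right]
      simp only [conj_trivial]
      ring
    rw [← integral_const_mul]
    simp only [e1]
    have hcc : ∀ i j, Continuous (fun g : SO (Fin 3) => xv g ^ n *
        (inner ℝ v (R.ρ ((w i)⁻¹ * g * w j) v) : ℝ)) := by
      intro i j
      refine (continuous_xv.pow n).mul (hcv.comp ?_)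
      exact (continuous_const.mul continuous_id).mul continuous_const
    have hcc2 : ∀ i j, Continuous (fun x : SO (Fin 3) => xv (w i * x * (w j)⁻¹) ^ n *
        (inner ℝ v (R.ρ x v) : ℝ)) := by
      intro i j
      refine ((continuous_xv.comp ?_).pow n).mul hcv
      exact (continuous_const.mul continuous_id).mul continuous_const
    rw [integral_finsetSum _ (fun i _ => integrable_of_cont
      (continuous_finsetSum _ fun j _ => hcc i j))]
    have e4 : ∀ x : SO (Fin 3), (∑ i, ∑ j, xv (w i * x * (w j)⁻¹) ^ n) *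
        (inner ℝ v (R.ρ x v) : ℝ) = ∑ i, ∑ j, xv (w i * x * (w j)⁻¹) ^ n *
        (inner ℝ v (R.ρ x v) : ℝ) := by
      intro x; simp only [Finset.sum_mul]
    simp only [e4]
    rw [integral_finsetSum _ (fun i _ => integrable_of_cont
      (continuous_finsetSum _ fun j _ => hcc2 i j))]
    refine Finset.sum_congr rfl fun i _ => ?_
    rw [integral_finsetSum _ (fun j _ => integrable_of_cont (hcc i j)),
      integral_finsetSum _ (fun j _ => integrable_of_cont (hcc2 i j))]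
    refine Finset.sum_congr rfl fun j _ => ?_
    -- substitution g = w i * x * (w j)⁻¹
    have f1 := integral_mul_left_eq_self (μ := μ3)
      (fun g : SO (Fin 3) => xv g ^ n * (inner ℝ v (R.ρ ((w i)⁻¹ * g * w j) v) : ℝ)) (w i)
    have f2 := integral_mul_right_eq_self (μ := μ3)
      (fun x : SO (Fin 3) => xv (w i * x) ^ n *
        (inner ℝ v (R.ρ ((w i)⁻¹ * (w i * x) * w j) v) : ℝ)) (w j)⁻¹
    refine f1.symm.trans (f2.symm.trans ?_)
    refine integral_congr_ae (ae_of_all _ fun x => ?_)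
    simp only []
    have g1 : (w i)⁻¹ * (w i * (x * (w j)⁻¹)) * w j = x := by group
    rw [g1, mul_assoc]
  -- step 3
  have hφi : Integrable (fun x => |(inner ℝ v (R.ρ x v) : ℝ)|) μ3 :=
    integrable_of_cont hcv.abs
  have hφ2 : Integrable (fun x => (inner ℝ v (R.ρ x v) : ℝ) ^ 2) μ3 :=
    integrable_of_cont (hcv.pow 2)
  have h3 : ∫ x, (∑ i, ∑ j, xv (w i * x * (w j)⁻¹) ^ n) * inner ℝ v (R.ρ x v) ∂μ3 ≤
      K1 * ∫ x, |(inner ℝ v (R.ρ x v) : ℝ)| ∂μ3 := by
    rw [← integral_const_mul]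
    refine integral_mono (integrable_of_cont ?_) (hφi.const_mul _) ?_
    · refine Continuous.mul ?_ hcv
      refine continuous_finsetSum _ fun i _ => continuous_finsetSum _ fun j _ => ?_
      refine (continuous_xv.comp ?_).pow n
      exact (continuous_const.mul continuous_id).mul continuous_const
    · intro x
      simp only []
      refine (le_abs_self _).trans ?_
      rw [abs_mul]
      exact mul_le_mul_of_nonneg_right (kernel_le w n x) (abs_nonneg _)
  -- step 4: Cauchy-Schwarz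
  set m1 : ℝ := ∫ x, |(inner ℝ v (R.ρ x v) : ℝ)| ∂μ3 with hm1
  set m2 : ℝ := ∫ x, (inner ℝ v (R.ρ x v) : ℝ) ^ 2 ∂μ3 with hm2
  have hm1n : 0 ≤ m1 := integral_nonneg fun x => abs_nonneg _
  have h4 : m1 ^ 2 ≤ m2 := by
    have hp : 0 ≤ ∫ x, (|(inner ℝ v (R.ρ x v) : ℝ)| - m1) ^ 2 ∂μ3 :=
      integral_nonneg fun x => sq_nonneg _
    have e : ∀ x, (|(inner ℝ v (R.ρ x v) : ℝ)| - m1) ^ 2 =
        (inner ℝ v (R.ρ x v) : ℝ) ^ 2 - 2 * m1 * |(inner ℝ v (R.ρ x v) : ℝ)| + m1 ^ 2 := by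
      intro x; rw [sub_sq, sq_abs]; ring
    simp only [e] at hp
    have i1 : Integrable (fun x => (inner ℝ v (R.ρ x v) : ℝ) ^ 2 -
        2 * m1 * |(inner ℝ v (R.ρ x v) : ℝ)|) μ3 := hφ2.sub (hφi.const_mul _)
    rw [integral_add i1 (integrable_const _), integral_sub hφ2 (hφi.const_mul _),
      integral_const_mul, ← hm1, ← hm2] at hp
    simp at hp
    nlinarith
  have h5 : Real.sqrt (c / 3) * m2 ≤ 1 := by
    have h := moment_bound R c hc hcas v hv
    have e : ∫ g, (inner ℝ (R.ρ g v) v : ℝ) ^ 2 ∂μ3 = m2 := by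
      refine integral_congr_ae (ae_of_all _ fun x => ?_)
      simp only []
      rw [real_inner_comm]
    rwa [e] at h
  -- conclusion
  set q : ℝ := (c / 3) ^ (1 / 4 : ℝ) with hq
  have hq0 : 0 ≤ q := Real.rpow_nonneg (by positivity) _
  have hqq : q ^ 2 = Real.sqrt (c / 3) := by
    rw [hq, Real.sqrt_eq_rpow, ← Real.rpow_natCast, ← Real.rpow_mul (by positivity)]
    norm_num
  have h6 : q * m1 ≤ 1 := by
    have : (q * m1) ^ 2 ≤ 1 := by
      rw [mul_pow, hqq]
      exact (mul_le_mul_of_nonneg_left h4 (Real.sqrt_nonneg _)).trans h5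
    have h0 : 0 ≤ q * m1 := by positivity
    nlinarith
  have hkl := kap_lower n hn1
  have hsn : 0 < Real.sqrt (n : ℝ) := Real.sqrt_pos.2 (by exact_mod_cast hn1)
  have h7 : s ^ 2 * (kap n / 2) ≤ K1 * m1 := by
    calc s ^ 2 * (kap n / 2) ≤ s ^ 2 * ∫ g, xv g ^ n * inner ℝ v (R.ρ g v) ∂μ3 :=
          mul_le_mul_of_nonneg_left h1 (sq_nonneg _)
      _ ≤ K1 * m1 := by rw [h2]; exact h3
  have h8 : s ^ 2 * (kap n / 2) * q ≤ K1 := by
    calc s ^ 2 * (kap n / 2) * q ≤ K1 * m1 * q := mul_le_mul_of_nonneg_right h7 hq0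
      _ = K1 * (q * m1) := by ring
      _ ≤ K1 * 1 := mul_le_mul_of_nonneg_left h6 hK0
      _ = K1 := mul_one _
  have h9 : s ^ 2 * (1 / (2 * ((n : ℝ) + 1) * Real.sqrt n) / 2) * q ≤ K1 := by
    refine le_trans ?_ h8
    refine mul_le_mul_of_nonneg_right (mul_le_mul_of_nonneg_left ?_ (sq_nonneg _)) hq0
    linarith
  have h10 : s ^ 2 * q = (4 * ((n : ℝ) + 1) * Real.sqrt n) *
      (s ^ 2 * (1 / (2 * ((n : ℝ) + 1) * Real.sqrt n) / 2) * q) := by
    field_simp
    ring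
  rw [h10]
  exact mul_le_mul_of_nonneg_left h9 (by positivity)

end Pool.Agent.K3h56
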