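import Pool.Agent.K3h56.So3Kappa

/-!
# Dimension bound from the Casimir eigenvalue, and the second moment of a matrix coefficient
-/

set_option autoImplicit false

open Matrix MeasureTheory Filter Topology

namespace Pool.Agent.K3h56

open Pool.Agent.K3h92

section ladder

variable {V : Type} [NormedAddCommGroup V] [InnerProductSpace ℝ V]

/-- Data of a triple of skew operators with the relations of `so(3)` preserving a subspace. -/
structure Triple (J P Q : V →ₗ[ℝ] V) (c : ℝ) (E : Submodule ℝ V) : Prop where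
  sJ : ∀ u v, inner ℝ (J u) v = -inner ℝ u (J v)
  sP : ∀ u v, inner ℝ (P u) v = -inner ℝ u (P v)
  sQ : ∀ u v, inner ℝ (Q u) v = -inner ℝ u (Q v)
  cas : ∀ v, J (J v) + P (P v) + Q (Q v) = -c • v
  b1 : ∀ v, J (P v) = P (J v) - Q v
  b2 : ∀ v, P (Q v) = Q (P v) - J v
  b3 : ∀ v, Q (J v) = J (Q v) - P v
  eJ : ∀ v ∈ E, J v ∈ E
  eP : ∀ v ∈ E, P v ∈ E
  eQ : ∀ v ∈ E, Q v ∈ E

lemma Triple.rotate {J P Q : V →ₗ[ℝ] V} {c : ℝ} {E : Submodule ℝ V} (h : Triple J P Q c E) :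
    Triple P Q J c E where
  sJ := h.sP
  sP := h.sQ
  sQ := h.sJ
  cas := by intro v; rw [← h.cas v]; abel
  b1 := h.b2
  b2 := h.b3
  b3 := h.b1
  eJ := h.eP
  eP := h.eQ
  eQ := h.eJ

lemma Triple.norms {J P Q : V →ₗ[ℝ] V} {c : ℝ} {E : Submodule ℝ V} (h : Triple J P Q c E) (u : V) :
    inner ℝ (J u) (J u) + inner ℝ (P u) (P u) + inner ℝ (Q u) (Q u) = c * inner ℝ u u := by
  rw [h.sJ, h.sP, h.sQ]
  have := congrArg (fun z => inner ℝ u z) (h.cas u)
  simp only [inner_add_right, inner_smul_right] at this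
  linarith

lemma ladder {J P Q : V →ₗ[ℝ] V} {c : ℝ} {E : Submodule ℝ V} (h : Triple J P Q c E)
    (m : ℝ) (hm : 0 < m) (u : V) (hu : u ∈ E) (hu0 : u ≠ 0) (hJ : J (J u) = -(m ^ 2) • u) :
    ∃ w ∈ E, w ≠ 0 ∧ J (J w) = -((m - 1) ^ 2) • w := by
  obtain ⟨u', hu'⟩ : ∃ u', u' = m⁻¹ • J u := ⟨_, rfl⟩
  have hJu : J u = m • u' := by rw [hu', smul_smul, mul_inv_cancel₀ hm.ne', one_smul]
  have hJu' : J u' = -m • u := by
    rw [hu', map_smul, hJ, smul_smul]
    congr 1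
    field_simp
  obtain ⟨w, hw⟩ : ∃ w, w = P u - Q u' := ⟨_, rfl⟩
  obtain ⟨w', hw'⟩ : ∃ w', w' = P u' + Q u := ⟨_, rfl⟩
  have hJw : J w = (m - 1) • w' := by
    have e1 := h.b1 u
    have e2 : J (Q u') = Q (J u') + P u' := by rw [h.b3]; abel
    rw [hw, map_sub, e1, e2, hJu, hJu', map_smul, map_smul, hw']
    module
  have hJw' : J w' = -(m - 1) • w := by
    have e1 := h.b1 u'
    have e2 : J (Q u) = Q (J u) + P u := by rw [h.b3]; abel
    rw [hw', map_add, e1, e2, hJu, hJu', map_smul, map_smul, hw]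
    module
  have hcirc : J (J w) = -((m - 1) ^ 2) • w := by
    rw [hJw, map_smul, hJw', smul_smul]
    congr 1; ring
  have hcirc' : J (J w') = -((m - 1) ^ 2) • w' := by
    rw [hJw', map_smul, hJw, smul_smul]
    congr 1; ring
  -- the norms
  have huu : inner ℝ u' u' = inner ℝ u u := by
    have : inner ℝ (J u) (J u) = m ^ 2 * inner ℝ u u := by
      rw [h.sJ, hJ, inner_smul_right]; ring
    rw [hJu, inner_smul_left, inner_smul_right] at this
    simp only [conj_trivial] at this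
    have hm2 : m ^ 2 ≠ 0 := by positivity
    have h2 : m ^ 2 * inner ℝ u' u' = m ^ 2 * inner ℝ u u := by rw [← this]; ring
    exact mul_left_cancel₀ hm2 h2
  have n1 := h.norms u
  have n2 := h.norms u'
  rw [hJu] at n1
  rw [hJu'] at n2
  simp only [inner_smul_left, inner_smul_right, conj_trivial] at n1 n2
  rw [huu] at n1 n2
  have hpq : inner ℝ (P u') (Q u) - inner ℝ (P u) (Q u') = m * inner ℝ u u := by
    have e1 : inner ℝ (P u') (Q u) = - inner ℝ (Q (P u')) u := by rw [h.sQ]; ring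
    have e2 : inner ℝ (P u) (Q u') = - inner ℝ (P (Q u')) u := by
      rw [h.sP, real_inner_comm]
    rw [e1, e2, h.b2, hJu']
    simp only [inner_sub_left, inner_smul_left, conj_trivial]
    ring
  have hsum : inner ℝ w w + inner ℝ w' w' = 2 * (c - m ^ 2 + m) * inner ℝ u u := by
    rw [hw, hw']
    simp only [inner_add_left, inner_add_right, inner_sub_left, inner_sub_right]
    rw [real_inner_comm (P u) (Q u'), real_inner_comm (P u') (Q u)] at *
    have c1 := real_inner_comm (P u) (Q u')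
    have c2 := real_inner_comm (P u') (Q u)
    nlinarith
  have hupos : 0 < (inner ℝ u u : ℝ) := real_inner_self_pos.2 hu0
  have hmc : m ^ 2 ≤ c := by
    have p1 : 0 ≤ (inner ℝ (P u) (P u) : ℝ) := real_inner_self_nonneg
    have p2 : 0 ≤ (inner ℝ (Q u) (Q u) : ℝ) := real_inner_self_nonneg
    by_contra hcon
    push Not at hcon
    nlinarith
  have hpos : 0 < inner ℝ w w + inner ℝ w' w' := by
    rw [hsum]
    have : 0 < c - m ^ 2 + m := by linarith
    positivity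
  have hJE : u' ∈ E := by rw [hu']; exact E.smul_mem _ (h.eJ u hu)
  by_cases hw0 : w = 0
  · refine ⟨w', by rw [hw']; exact E.add_mem (h.eP _ hJE) (h.eQ _ hu), ?_, hcirc'⟩
    intro hw'0
    rw [hw0, hw'0] at hpos
    simp at hpos
  · exact ⟨w, by rw [hw]; exact E.sub_mem (h.eP _ hu) (h.eQ _ hJE), hw0, hcirc⟩

lemma dim_bound [FiniteDimensional ℝ V] {J P Q : V →ₗ[ℝ] V} {c : ℝ} {E : Submodule ℝ V}
    (h : Triple J P Q c E)
    (m : ℝ) (hm : 0 < m) (u : V) (hu : u ∈ E) (hu0 : u ≠ 0) (hJ : J (J u) = -(m ^ 2) • u) :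
    m ≤ Module.finrank ℝ E := by
  have hstep : ∀ k : ℕ, (k : ℝ) ≤ m → ∃ w ∈ E, w ≠ 0 ∧ J (J w) = -((m - k) ^ 2) • w := by
    intro k
    induction k with
    | zero => intro _; exact ⟨u, hu, hu0, by simpa using hJ⟩
    | succ k ih =>
      intro hk
      push_cast at hk
      obtain ⟨w, hw, hw0, hww⟩ := ih (by linarith)
      obtain ⟨w2, a1, a2, a3⟩ := ladder h (m - k) (by linarith) w hw hw0 hww
      refine ⟨w2, a1, a2, ?_⟩
      rw [a3]; congr 2; push_cast; ring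
  have hfl : ∀ k : Fin (⌊m⌋₊ + 1), ((k : ℕ) : ℝ) ≤ m := by
    intro k
    have h1 : (k : ℕ) ≤ ⌊m⌋₊ := by omega
    exact (Nat.cast_le.2 h1).trans (Nat.floor_le hm.le)
  choose w hw hw0 hww using fun k : Fin (⌊m⌋₊ + 1) => hstep k (hfl k)
  have hli : LinearIndependent ℝ w := by
    refine Module.End.eigenvectors_linearIndependent' (J * J : Module.End ℝ V)
      (fun k : Fin (⌊m⌋₊ + 1) => -((m - (k : ℕ)) ^ 2)) ?_ w ?_
    · intro a b hab
      simp only [neg_inj] at hab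
      have ha := hfl a
      have hb := hfl b
      have := (sq_eq_sq₀ (by linarith) (by linarith)).1 hab
      have h2 : ((a : ℕ) : ℝ) = ((b : ℕ) : ℝ) := by linarith
      exact Fin.ext (by exact_mod_cast h2)
    · intro k
      rw [Module.End.hasEigenvector_iff, Module.End.mem_eigenspace_iff]
      exact ⟨hww k, hw0 k⟩
  have hli2 : LinearIndependent ℝ (fun k => (⟨w k, hw k⟩ : E)) := by
    refine LinearIndependent.of_comp E.subtype ?_
    exact hli
  have hcard := hli2.fintype_card_le_finrank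
  rw [Fintype.card_fin] at hcard
  have h1 : m < (⌊m⌋₊ : ℝ) + 1 := Nat.lt_floor_add_one m
  have h2 : ((⌊m⌋₊ + 1 : ℕ) : ℝ) ≤ Module.finrank ℝ E := by exact_mod_cast hcard
  push_cast at h2
  linarith

/-- The largest eigenvalue of a symmetric operator on an invariant subspace. -/
lemma exists_max_eig [FiniteDimensional ℝ V] (T : V →ₗ[ℝ] V)
    (hT : ∀ u v, inner ℝ (T u) v = inner ℝ u (T v)) (E : Submodule ℝ V) (hE : ∀ v ∈ E, T v ∈ E)
    (hne : E ≠ ⊥) : ∃ (l : ℝ) (u : V), u ∈ E ∧ u ≠ 0 ∧ T u = l • u ∧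
      ∀ x ∈ E, inner ℝ (T x) x ≤ l * ‖x‖ ^ 2 := by
  have : Nontrivial E := Submodule.nontrivial_iff_ne_bot.2 hne
  set T' : E →ₗ[ℝ] E := T.restrict hE with hT'
  have hsym : T'.IsSymmetric := by
    intro x y
    exact hT x y
  have hev := hsym.hasEigenvalue_iSup_of_finiteDimensional
  set l : ℝ := ⨆ x : { x : E // x ≠ 0 }, RCLike.re (inner ℝ (T' x) (x : E)) / ‖(x : E)‖ ^ 2 with hl
  have hbdd : BddAbove (Set.range fun x : { x : E // x ≠ 0 } =>
      (inner ℝ (T' x) (x : E) : ℝ) / ‖(x : E)‖ ^ 2) := by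
    refine ⟨‖LinearMap.toContinuousLinearMap T'‖, ?_⟩
    rintro _ ⟨x, rfl⟩
    have hx : 0 < ‖(x : E)‖ := norm_pos_iff.2 x.2
    simp only
    rw [div_le_iff₀ (by positivity)]
    have h1 := real_inner_le_norm (T' x) (x : E)
    have h2 := (LinearMap.toContinuousLinearMap T').le_opNorm (x : E)
    have h3 : ‖T' (x : E)‖ ≤ ‖LinearMap.toContinuousLinearMap T'‖ * ‖(x : E)‖ := h2
    nlinarith
  obtain ⟨u, hu⟩ := hev.exists_hasEigenvector
  rw [Module.End.hasEigenvector_iff, Module.End.mem_eigenspace_iff] at hu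
  refine ⟨l, u, u.2, fun h0 => hu.2 (Subtype.ext h0), ?_, ?_⟩
  · have := congrArg Subtype.val hu.1
    simpa [hT'] using this
  · intro x hx
    by_cases hx0 : x = 0
    · simp [hx0]
    · have hx0' : (⟨x, hx⟩ : E) ≠ 0 := fun h => hx0 (congrArg Subtype.val h)
      have h1 := le_ciSup hbdd ⟨⟨x, hx⟩, hx0'⟩
      have hxn : 0 < ‖x‖ := norm_pos_iff.2 hx0
      have h2 : (inner ℝ (T x) x : ℝ) / ‖x‖ ^ 2 ≤ l := h1
      rwa [div_le_iff₀ (by positivity)] at h2

lemma dim_lower [FiniteDimensional ℝ V] {J P Q : V →ₗ[ℝ] V} {c : ℝ} (hc : 0 < c)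
    {E : Submodule ℝ V} (h : Triple J P Q c E) (hne : E ≠ ⊥) :
    Real.sqrt (c / 3) ≤ Module.finrank ℝ E := by
  -- main step for the plane with the largest eigenvalue
  have main : ∀ (J P Q : V →ₗ[ℝ] V), Triple J P Q c E → ∀ (l : ℝ) (u : V), u ∈ E → u ≠ 0 →
      (-(J * J)) u = l • u → c / 3 ≤ l → Real.sqrt (c / 3) ≤ Module.finrank ℝ E := by
    intro J P Q h l u hu hu0 hl hcl
    have hl0 : 0 < l := lt_of_lt_of_le (by positivity) hcl
    have := dim_bound h (Real.sqrt l) (Real.sqrt_pos.2 hl0) u hu hu0 (by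
      rw [Real.sq_sqrt hl0.le]
      have h2 : -(J (J u)) = l • u := hl
      rw [neg_smul, ← h2, neg_neg])
    exact (Real.sqrt_le_sqrt hcl).trans this
  have hsym : ∀ (J : V →ₗ[ℝ] V), (∀ u v, inner ℝ (J u) v = -inner ℝ u (J v)) →
      ∀ u v, inner ℝ ((-(J * J)) u) v = inner ℝ u ((-(J * J)) v) := by
    intro J hJ u v
    show inner ℝ (-(J (J u))) v = inner ℝ u (-(J (J v)))
    rw [inner_neg_left, inner_neg_right, hJ, hJ]
    ring
  have hinv : ∀ (J : V →ₗ[ℝ] V), (∀ v ∈ E, J v ∈ E) → ∀ v ∈ E, (-(J * J)) v ∈ E := by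
    intro J hJ v hv
    exact E.neg_mem (hJ _ (hJ _ hv))
  obtain ⟨l1, u1, a1, a2, a3, a4⟩ := exists_max_eig _ (hsym J h.sJ) E (hinv J h.eJ) hne
  obtain ⟨l2, u2, b1, b2, b3, b4⟩ := exists_max_eig _ (hsym P h.sP) E (hinv P h.eP) hne
  obtain ⟨l3, u3, c1, c2, c3, c4⟩ := exists_max_eig _ (hsym Q h.sQ) E (hinv Q h.eQ) hne
  have hsum : c ≤ l1 + l2 + l3 := by
    have e1 := a4 u1 a1
    have e2 := b4 u1 a1
    have e3 := c4 u1 a1
    have e4 := congrArg (fun z => inner ℝ z u1) (h.cas u1)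
    simp only [inner_add_left, inner_smul_left, conj_trivial] at e4
    have f1 : inner ℝ ((-(J * J)) u1) u1 = - (inner ℝ (J (J u1)) u1 : ℝ) := inner_neg_left _ _
    have f2 : inner ℝ ((-(P * P)) u1) u1 = - (inner ℝ (P (P u1)) u1 : ℝ) := inner_neg_left _ _
    have f3 : inner ℝ ((-(Q * Q)) u1) u1 = - (inner ℝ (Q (Q u1)) u1 : ℝ) := inner_neg_left _ _
    have f4 : (inner ℝ u1 u1 : ℝ) = ‖u1‖ ^ 2 := real_inner_self_eq_norm_sq u1
    have f5 : 0 < ‖u1‖ ^ 2 := by
      have := norm_pos_iff.2 a2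
      positivity
    rw [f4] at e4
    by_contra hcon
    push Not at hcon
    nlinarith
  by_cases h1 : c / 3 ≤ l1
  · exact main J P Q h l1 u1 a1 a2 a3 h1
  · by_cases h2 : c / 3 ≤ l2
    · exact main P Q J h.rotate l2 u2 b1 b2 b3 h2
    · push Not at h1 h2
      exact main Q J P h.rotate.rotate l3 u3 c1 c2 c3 (by linarith)

end ladder

end Pool.Agent.K3h56
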