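import Pool.Agent.K3h92.Lps

/-!
# Trace identities on `SO(3)`
-/

set_option autoImplicit false

open Matrix

namespace Pool.Agent.K3h56

open Pool.Agent.K3h92

/-- the variable `x = (1 + tr g)/4`. -/
noncomputable def xv (g : SO (Fin 3)) : ℝ := (1 + Matrix.trace (g : Matrix (Fin 3) (Fin 3) ℝ)) / 4

lemma ker4_eq (n : ℕ) (g : SO (Fin 3)) : ker4 n g = xv g ^ n := rfl

lemma trace3 (g : Matrix (Fin 3) (Fin 3) ℝ) : g.trace = g 0 0 + g 1 1 + g 2 2 := by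
  simp [Matrix.trace, Fin.sum_univ_three]

/-- The orthogonality relations, entry by entry. -/
lemma orth (g : SO (Fin 3)) (a b : Fin 3) :
    (g : Matrix (Fin 3) (Fin 3) ℝ) 0 a * (g : Matrix (Fin 3) (Fin 3) ℝ) 0 b +
    (g : Matrix (Fin 3) (Fin 3) ℝ) 1 a * (g : Matrix (Fin 3) (Fin 3) ℝ) 1 b +
    (g : Matrix (Fin 3) (Fin 3) ℝ) 2 a * (g : Matrix (Fin 3) (Fin 3) ℝ) 2 b =
    if a = b then 1 else 0 := by
  have h := ((SO.mem_iff _).1 g.2).1
  have h1 := congrFun (congrFun h a) b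
  rw [Matrix.mul_apply, Fin.sum_univ_three, Matrix.one_apply] at h1
  simpa only [Matrix.transpose_apply] using h1

/-- adjugate = transpose. -/
lemma adj_eq (g : SO (Fin 3)) :
    (g : Matrix (Fin 3) (Fin 3) ℝ).adjugate = (g : Matrix (Fin 3) (Fin 3) ℝ)ᵀ := by
  obtain ⟨h1, h2⟩ := (SO.mem_iff _).1 g.2
  have h3 := Matrix.mul_adjugate (g : Matrix (Fin 3) (Fin 3) ℝ)
  rw [h2, one_smul] at h3
  calc (g : Matrix (Fin 3) (Fin 3) ℝ).adjugate
      = ((g : Matrix (Fin 3) (Fin 3) ℝ)ᵀ * (g : Matrix (Fin 3) (Fin 3) ℝ)) *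
        (g : Matrix (Fin 3) (Fin 3) ℝ).adjugate := by rw [h1, one_mul]
    _ = (g : Matrix (Fin 3) (Fin 3) ℝ)ᵀ := by rw [mul_assoc, h3, mul_one]

/-- Sum of the squares of the skew entries. -/
lemma sum_skew_sq (g : SO (Fin 3)) :
    ((g : Matrix (Fin 3) (Fin 3) ℝ) 1 0 - (g : Matrix (Fin 3) (Fin 3) ℝ) 0 1) ^ 2 +
    ((g : Matrix (Fin 3) (Fin 3) ℝ) 2 1 - (g : Matrix (Fin 3) (Fin 3) ℝ) 1 2) ^ 2 +
    ((g : Matrix (Fin 3) (Fin 3) ℝ) 0 2 - (g : Matrix (Fin 3) (Fin 3) ℝ) 2 0) ^ 2 =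
    16 * xv g * (1 - xv g) := by
  have h0 := orth g 0 0
  have h1 := orth g 1 1
  have h2 := orth g 2 2
  have ha := adj_eq g
  have a0 := congrFun (congrFun ha 0) 0
  have a1 := congrFun (congrFun ha 1) 1
  have a2 := congrFun (congrFun ha 2) 2
  rw [Matrix.adjugate_fin_three] at a0 a1 a2
  simp at h0 h1 h2 a0 a1 a2
  rw [xv, trace3]
  nlinarith [h0, h1, h2, a0, a1, a2]

lemma xv_nonneg_le (g : SO (Fin 3)) : 0 ≤ xv g ∧ xv g ≤ 1 := by
  have h := sum_skew_sq g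
  have h1 : 0 ≤ xv g * (1 - xv g) := by
    nlinarith [sq_nonneg ((g : Matrix (Fin 3) (Fin 3) ℝ) 1 0 - (g : Matrix (Fin 3) (Fin 3) ℝ) 0 1),
      sq_nonneg ((g : Matrix (Fin 3) (Fin 3) ℝ) 2 1 - (g : Matrix (Fin 3) (Fin 3) ℝ) 1 2),
      sq_nonneg ((g : Matrix (Fin 3) (Fin 3) ℝ) 0 2 - (g : Matrix (Fin 3) (Fin 3) ℝ) 2 0)]
  constructor
  · by_contra hc
    push Not at hc
    nlinarith
  · by_contra hc
    push Not at hc
    nlinarith

lemma xv_one : xv 1 = 1 := by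
  rw [xv, trace3]
  simp
  norm_num

lemma xv_eq_one (g : SO (Fin 3)) (h : xv g = 1) : g = 1 := by
  rw [xv, trace3] at h
  have b0 := (abs_le.1 (SO.abs_entry_le g 0 0)).2
  have b1 := (abs_le.1 (SO.abs_entry_le g 1 1)).2
  have b2 := (abs_le.1 (SO.abs_entry_le g 2 2)).2
  have e0 : (g : Matrix (Fin 3) (Fin 3) ℝ) 0 0 = 1 := by linarith
  have e1 : (g : Matrix (Fin 3) (Fin 3) ℝ) 1 1 = 1 := by linarith
  have e2 : (g : Matrix (Fin 3) (Fin 3) ℝ) 2 2 = 1 := by linarith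
  have h0 := orth g 0 0
  have h1 := orth g 1 1
  have h2 := orth g 2 2
  simp only [if_true, e0, e1, e2] at h0 h1 h2
  have k (x y : ℝ) (hxy : x * x + y * y = 0) : x = 0 ∧ y = 0 := by
    constructor <;> nlinarith [mul_self_nonneg x, mul_self_nonneg y]
  obtain ⟨f10, f20⟩ := k ((g : Matrix (Fin 3) (Fin 3) ℝ) 1 0)
    ((g : Matrix (Fin 3) (Fin 3) ℝ) 2 0) (by linarith)
  obtain ⟨f01, f21⟩ := k ((g : Matrix (Fin 3) (Fin 3) ℝ) 0 1)
    ((g : Matrix (Fin 3) (Fin 3) ℝ) 2 1) (by linarith)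
  obtain ⟨f02, f12⟩ := k ((g : Matrix (Fin 3) (Fin 3) ℝ) 0 2)
    ((g : Matrix (Fin 3) (Fin 3) ℝ) 1 2) (by linarith)
  apply Subtype.ext
  ext i j
  fin_cases i <;> fin_cases j <;> simp [e0, e1, e2, f10, f20, f01, f21, f02, f12]

lemma continuous_entry (a b : Fin 3) :
    Continuous (fun g : SO (Fin 3) => (g : Matrix (Fin 3) (Fin 3) ℝ) a b) := by
  have h : Continuous (fun g : SO (Fin 3) => (g : Matrix (Fin 3) (Fin 3) ℝ)) :=
    continuous_subtype_val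
  exact h.matrix_elem a b

lemma continuous_xv : Continuous xv := by
  have : xv = fun g : SO (Fin 3) => (1 + ((g : Matrix (Fin 3) (Fin 3) ℝ) 0 0 +
      (g : Matrix (Fin 3) (Fin 3) ℝ) 1 1 + (g : Matrix (Fin 3) (Fin 3) ℝ) 2 2)) / 4 := by
    ext g; rw [xv, trace3]
  rw [this]
  have h0 := continuous_entry 0 0
  have h1 := continuous_entry 1 1
  have h2 := continuous_entry 2 2
  exact (continuous_const.add ((h0.add h1).add h2)).div_const 4

/-- The skew entry in a plane. -/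
def yv (a b : Fin 3) (g : SO (Fin 3)) : ℝ :=
  (g : Matrix (Fin 3) (Fin 3) ℝ) b a - (g : Matrix (Fin 3) (Fin 3) ℝ) a b

/-- The diagonal sum in a plane. -/
def dv (a b : Fin 3) (g : SO (Fin 3)) : ℝ :=
  (g : Matrix (Fin 3) (Fin 3) ℝ) a a + (g : Matrix (Fin 3) (Fin 3) ℝ) b b

lemma continuous_yv (a b : Fin 3) : Continuous (yv a b) :=
  (continuous_entry b a).sub (continuous_entry a b)

lemma continuous_dv (a b : Fin 3) : Continuous (dv a b) :=
  (continuous_entry a a).add (continuous_entry b b)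

lemma rot_mul_entry (a b : Fin 3) (hab : a ≠ b) (t : ℝ) (g : SO (Fin 3)) (i j : Fin 3) :
    ((rot a b hab t * g : SO (Fin 3)) : Matrix (Fin 3) (Fin 3) ℝ) i j =
      (g : Matrix (Fin 3) (Fin 3) ℝ) i j +
      (Real.cos t - 1) * ((if i = a then (g : Matrix (Fin 3) (Fin 3) ℝ) a j else 0) +
        (if i = b then (g : Matrix (Fin 3) (Fin 3) ℝ) b j else 0)) +
      Real.sin t * ((if i = a then (g : Matrix (Fin 3) (Fin 3) ℝ) b j else 0) -
        (if i = b then (g : Matrix (Fin 3) (Fin 3) ℝ) a j else 0)) := by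
  have key : ∀ (p q : Fin 3), (Matrix.single p q (1:ℝ) * (g : Matrix (Fin 3) (Fin 3) ℝ)) i j =
      if i = p then (g : Matrix (Fin 3) (Fin 3) ℝ) q j else 0 := by
    intro p q
    by_cases h : i = p
    · subst h
      simp
    · rw [if_neg h]
      rw [Matrix.single_mul_apply_of_ne _ _ _ _ _ h]
  show (rotMat a b t * (g : Matrix (Fin 3) (Fin 3) ℝ)) i j = _
  unfold rotMat
  rw [Matrix.add_mul, Matrix.add_mul, Matrix.one_mul, Matrix.smul_mul, Matrix.smul_mul,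
    Matrix.add_mul, Matrix.sub_mul]
  simp only [Matrix.add_apply, Matrix.smul_apply, Matrix.sub_apply, key, smul_eq_mul]

lemma xv_rot (a b : Fin 3) (hab : a ≠ b) (t : ℝ) (g : SO (Fin 3)) :
    xv (rot a b hab t * g) = xv g + ((Real.cos t - 1) * dv a b g + Real.sin t * yv a b g) / 4 := by
  rw [xv, xv, trace3, trace3]
  rw [rot_mul_entry, rot_mul_entry, rot_mul_entry, dv, yv]
  revert hab
  fin_cases a <;> fin_cases b <;> simp <;> ring

lemma yv_rot (a b : Fin 3) (hab : a ≠ b) (t : ℝ) (g : SO (Fin 3)) :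
    yv a b (rot a b hab t * g) = Real.cos t * yv a b g - Real.sin t * dv a b g := by
  rw [yv, rot_mul_entry, rot_mul_entry, dv, yv]
  rw [if_neg hab.symm, if_pos rfl, if_pos rfl, if_neg hab]
  simp [hab, hab.symm]
  ring

end Pool.Agent.K3h56
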