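import Pool.Agent.K3h56.So3Rec

/-!
# Lower bound for the multiplier of `x ^ n` on `SO(3)`
-/

set_option autoImplicit false

open Matrix MeasureTheory Filter Topology

namespace Pool.Agent.K3h56

open Pool.Agent.K3h92

/-- The trivial representation. -/
noncomputable def trivRep : SORep (Fin 3) ℝ where
  A := fun _ _ => 0
  anti := by intro a b; simp
  skew := by intro a b u v; simp
  br := by intro a b c d; simp
  ρ := 1
  norm_ρ := by intro g v; simp
  Ad := by intro g a b; simp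
  deriv := by
    intro a b hab v
    simpa using hasDerivAt_const (0:ℝ) v
  cont := by
    intro v
    simpa using continuous_const

/-- `∫ x^n`. -/
noncomputable def kap (n : ℕ) : ℝ := ∫ g, xv g ^ n ∂μ3

lemma kap_zero : kap 0 = 1 := by
  simp [kap]

lemma kap_rec (n : ℕ) : ((n : ℝ) + 2) * kap (n + 1) = ((n : ℝ) + 1 / 2) * kap n := by
  have h := phi_rec trivRep 0 (by intro v; simp [trivRep]) n 1
  have e : ∀ m : ℕ, Phi trivRep (fun g => xv g ^ m) 1 = kap m := by
    intro m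
    simp [Phi, trivRep, kap]
  rw [e, e] at h
  simp only [smul_eq_mul, sub_zero] at h
  have hn : (0:ℝ) < (n:ℝ) + 1 := by positivity
  have h2 : ((n : ℝ) + 1) * (((n : ℝ) + 2) * kap (n + 1)) =
      ((n : ℝ) + 1) * (((n : ℝ) + 1 / 2) * kap n) := by linarith
  exact mul_left_cancel₀ hn.ne' h2

lemma kap_pos (n : ℕ) : 0 < kap n := by
  induction n with
  | zero => rw [kap_zero]; norm_num
  | succ n ih =>
    have h := kap_rec n
    have h1 : 0 < ((n : ℝ) + 1 / 2) * kap n := by positivity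
    rw [← h] at h1
    exact (pos_iff_pos_of_mul_pos h1).1 (by positivity)

lemma kap_sq (n : ℕ) : 1 ≤ (((n : ℝ) + 2) * kap (n + 1)) ^ 2 * (4 * ((n : ℝ) + 1)) := by
  induction n with
  | zero =>
    have h := kap_rec 0
    rw [kap_zero] at h
    rw [h]
    norm_num
  | succ n ih =>
    have h := kap_rec (n + 1)
    push_cast at h ⊢
    rw [h]
    set K := kap (n + 1)
    have hK : 0 < K := kap_pos _
    have hn : (0:ℝ) ≤ n := Nat.cast_nonneg n
    have h2 : 0 < ((n:ℝ) + 2) ^ 2 := by positivity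
    have h4 : (((n : ℝ) + 2) * K) ^ 2 * (4 * ((n : ℝ) + 1)) ≤
        (((n:ℝ) + 1 + 1 / 2) * K) ^ 2 * (4 * ((n:ℝ) + 1 + 1)) := by
      have : 0 ≤ K ^ 2 * ((n:ℝ) + 2) := by positivity
      nlinarith
    exact ih.trans h4

lemma kap_lower (n : ℕ) (hn : 1 ≤ n) : 1 / (2 * ((n : ℝ) + 1) * Real.sqrt n) ≤ kap n := by
  obtain ⟨m, rfl⟩ : ∃ m, n = m + 1 := ⟨n - 1, by omega⟩
  have h := kap_sq m
  have hK := kap_pos (m + 1)
  have hs : 0 < Real.sqrt ((m + 1 : ℕ) : ℝ) := Real.sqrt_pos.2 (by positivity)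
  have hs2 : Real.sqrt ((m + 1 : ℕ) : ℝ) ^ 2 = (m : ℝ) + 1 := by
    rw [Real.sq_sqrt (by positivity)]; push_cast; ring
  rw [div_le_iff₀ (by positivity)]
  have h1 : 1 ≤ (kap (m + 1) * (2 * (((m + 1 : ℕ) : ℝ) + 1) * Real.sqrt ((m + 1 : ℕ) : ℝ))) ^ 2 := by
    have : (kap (m + 1) * (2 * (((m + 1 : ℕ) : ℝ) + 1) * Real.sqrt ((m + 1 : ℕ) : ℝ))) ^ 2 =
        (((m : ℝ) + 2) * kap (m + 1)) ^ 2 * (4 * ((m : ℝ) + 1)) := by
      rw [← hs2]; push_cast; ring
    rw [this]; exact h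
  have h2 : 0 ≤ kap (m + 1) * (2 * (((m + 1 : ℕ) : ℝ) + 1) * Real.sqrt ((m + 1 : ℕ) : ℝ)) := by
    positivity
  nlinarith

variable {V : Type} [NormedAddCommGroup V] [InnerProductSpace ℝ V] [FiniteDimensional ℝ V]

lemma inner_Phi (R : SORep (Fin 3) V) (f : SO (Fin 3) → ℝ) (hf : Continuous f) (v u : V) :
    inner ℝ u (Phi R f v) = ∫ g, f g * inner ℝ u (R.ρ g v) ∂μ3 := by
  have hi : Integrable (fun x => f x • R.ρ x v) μ3 := integrable_of_cont (hf.smul (R.cont v))
  have h := ContinuousLinearMap.integral_comp_comm (innerSL ℝ u) hi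
  simp only [innerSL_apply_apply, inner_smul_right] at h
  exact h.symm

/-- The multiplier is at least half of `kap n`. -/
lemma mult_lower (R : SORep (Fin 3) V) (c : ℝ) (hc : 0 < c)
    (hcas : ∀ v, R.A 0 1 (R.A 0 1 v) + R.A 1 2 (R.A 1 2 v) + R.A 2 0 (R.A 2 0 v) = -c • v)
    (v : V) (hv : ‖v‖ = 1) (n : ℕ) (hn : 2 * c ≤ n + 1) :
    kap n / 2 ≤ ∫ g, xv g ^ n * inner ℝ v (R.ρ g v) ∂μ3 := by
  set ps : ℕ → ℝ := fun m => ∫ g, xv g ^ m * inner ℝ v (R.ρ g v) ∂μ3 with hps
  have hrec : ∀ m : ℕ, (((m : ℝ) + 1) * ((m : ℝ) + 2) - c) * ps (m + 1) =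
      (((m : ℝ) + 1) * ((m : ℝ) + 1 / 2)) * ps m := by
    intro m
    have h := phi_rec R c hcas m v
    have h2 := congrArg (fun z => inner ℝ v z) h
    simp only [inner_smul_right] at h2
    have e := fun k : ℕ => inner_Phi R (fun g => xv g ^ k) (continuous_xv.pow k) v v
    rw [e (m + 1), e m] at h2
    exact h2
  -- the ratios
  set r : ℕ → ℝ := fun m => ps m / kap m with hr
  have hrr : ∀ m : ℕ, r m = (1 - c / (((m : ℝ) + 1) * ((m : ℝ) + 2))) * r (m + 1) := by
    intro m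
    have h1 := hrec m
    have h2 := kap_rec m
    have k1 := kap_pos m
    have k2 := kap_pos (m + 1)
    have hm : (0:ℝ) < (m:ℝ) + 1 := by positivity
    have hm2 : (0:ℝ) < (m:ℝ) + 2 := by positivity
    have hm3 : (0:ℝ) < (m:ℝ) + 1 / 2 := by positivity
    have e1 : ps m = (((m : ℝ) + 1) * ((m : ℝ) + 2) - c) * ps (m + 1) /
        (((m : ℝ) + 1) * ((m : ℝ) + 1 / 2)) := by
      rw [h1]; field_simp
    have e2 : kap m = ((m : ℝ) + 2) * kap (m + 1) / ((m : ℝ) + 1 / 2) := by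
      rw [h2]; field_simp
    simp only [hr]
    rw [e1, e2]
    field_simp
  -- the limit
  have hlim : Tendsto r atTop (𝓝 1) := by
    have : TopologicalSpace.MetrizableSpace (SO (Fin 3)) :=
      inferInstanceAs (TopologicalSpace.MetrizableSpace {x : Fin 3 → Fin 3 → ℝ // x ∈ SO (Fin 3)})
    have hcφ : Continuous (fun g : SO (Fin 3) => inner ℝ v (R.ρ g v)) :=
      continuous_const.inner (R.cont v)
    have h := tendsto_setIntegral_pow_smul_of_unique_maximum_of_isCompact_of_continuousOn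
      (μ := (μ3 : Measure (SO (Fin 3)))) (s := Set.univ) (x₀ := 1) (c := xv)
      (g := fun g : SO (Fin 3) => (inner ℝ v (R.ρ g v) : ℝ)) isCompact_univ
      continuous_xv.continuousOn
      (by
        intro y _ hy
        rw [xv_one]
        exact lt_of_le_of_ne (xv_nonneg_le y).2 (fun h => hy (xv_eq_one y h)))
      (fun x _ => (xv_nonneg_le x).1) (by rw [xv_one]; norm_num) (by simp) hcφ.continuousOn
    have e : inner ℝ v (R.ρ 1 v) = (1 : ℝ) := by
      rw [map_one]
      simp [hv]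
    rw [e] at h
    refine h.congr ?_
    intro m
    simp only [Measure.restrict_univ, smul_eq_mul, hr, hps, kap]
    rw [div_eq_inv_mul]
  -- monotonicity
  have hpos : ∀ m : ℕ, n ≤ m → 0 < 1 - c / (((m : ℝ) + 1) * ((m : ℝ) + 2)) := by
    intro m hm
    have hm' : (n : ℝ) ≤ m := by exact_mod_cast hm
    have hn0 : (0:ℝ) ≤ n := Nat.cast_nonneg n
    rw [sub_pos, div_lt_one (by positivity)]
    nlinarith
  have hpos2 : ∀ m : ℕ, n ≤ m → 1 / 2 ≤ 1 - c / ((m : ℝ) + 1) := by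
    intro m hm
    have hm' : (n : ℝ) ≤ m := by exact_mod_cast hm
    have h1 : (0:ℝ) < (m:ℝ) + 1 := by positivity
    have : c / ((m:ℝ) + 1) ≤ 1 / 2 := by
      rw [div_le_iff₀ h1]; linarith
    linarith
  have hmono : ∀ k m : ℕ, n ≤ m → 0 ≤ r (m + k) →
      0 ≤ r m ∧ (1 - c / ((m : ℝ) + 1)) * r (m + k) ≤
        (1 - c / (((m + k : ℕ) : ℝ) + 1)) * r m := by
    intro k
    induction k with
    | zero =>
      intro m hm h
      exact ⟨h, le_refl _⟩
    | succ k ih =>
      intro m hm h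
      have h0 : m + (k + 1) = (m + 1) + k := by ring
      rw [h0] at h ⊢
      obtain ⟨i1, i2⟩ := ih (m + 1) (by omega) h
      have hp := hpos m hm
      have hrm := hrr m
      refine ⟨by rw [hrm]; positivity, ?_⟩
      have q1 := hpos2 m hm
      have q2 := hpos2 (m + 1) (by omega)
      have q3 := hpos2 (m + 1 + k) (by omega)
      rw [hrm]
      push_cast at *
      set A := 1 - c / ((m : ℝ) + 1) with hA
      set B := 1 - c / ((m : ℝ) + 1 + 1) with hB
      set D := 1 - c / (((m : ℝ) + 1) * ((m : ℝ) + 2)) with hD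
      set Q := 1 - c / ((m : ℝ) + 1 + (k:ℝ) + 1) with hQ
      have hAB : A ≤ B * D := by
        have e : B * D - A = c ^ 2 / (((m:ℝ) + 1) * ((m:ℝ) + 2) ^ 2) := by
          rw [hA, hB, hD]
          field_simp
          ring
        have : 0 ≤ c ^ 2 / (((m:ℝ) + 1) * ((m:ℝ) + 2) ^ 2) := by positivity
        linarith
      have hB0 : 0 < B := by linarith
      -- B * r(m+1+k) ≤ Q * r (m+1)
      have s1 : A * r (m + 1 + k) ≤ B * D * r (m + 1 + k) :=
        mul_le_mul_of_nonneg_right hAB h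
      have s2 : D * (B * r (m + 1 + k)) ≤ D * (Q * r (m + 1)) :=
        mul_le_mul_of_nonneg_left i2 hp.le
      nlinarith
  -- conclusion
  have hev : ∀ᶠ N in atTop, (1 - c / ((n : ℝ) + 1)) * r N ≤ (1 - c / ((N : ℝ) + 1)) * r n := by
    have h1 : ∀ᶠ N in atTop, 0 < r N := hlim.eventually (lt_mem_nhds (by norm_num))
    filter_upwards [h1, eventually_ge_atTop n] with N hN hNn
    obtain ⟨k, rfl⟩ := Nat.exists_eq_add_of_le hNn
    exact (hmono k n le_rfl hN.le).2
  have hl1 : Tendsto (fun N : ℕ => (1 - c / ((n : ℝ) + 1)) * r N) atTop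
      (𝓝 ((1 - c / ((n : ℝ) + 1)) * 1)) := hlim.const_mul _
  have hl2 : Tendsto (fun N : ℕ => (1 - c / ((N : ℝ) + 1)) * r n) atTop
      (𝓝 ((1 - 0) * r n)) := by
    refine Tendsto.mul_const _ (tendsto_const_nhds.sub ?_)
    exact tendsto_const_nhds.div_atTop (tendsto_atTop_add_const_right _ _
      tendsto_natCast_atTop_atTop)
  have hfin := le_of_tendsto_of_tendsto hl1 hl2 hev
  have h5 := hpos2 n le_rfl
  have h6 : 1 / 2 ≤ r n := by linarith
  have hK := kap_pos n
  have h7 : ps n = r n * kap n := by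
    simp only [hr]; field_simp
  show kap n / 2 ≤ ps n
  rw [h7]
  nlinarith

end Pool.Agent.K3h56
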