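import Pool.Agent.K3h56.So3Geom

/-!
# The Casimir recursion for the kernels `x ^ n` on `SO(3)`
-/

set_option autoImplicit false

open Matrix MeasureTheory Filter Topology

namespace Pool.Agent.K3h56

open Pool.Agent.K3h92

/-- The Haar probability of `SO(3)`. -/
noncomputable abbrev μ3 : Measure (SO (Fin 3)) := haarSO (Fin 3)

variable {V : Type} [NormedAddCommGroup V] [InnerProductSpace ℝ V] [FiniteDimensional ℝ V]

/-- Vector valued Fourier coefficient. -/
noncomputable def Phi (R : SORep (Fin 3) V) (f : SO (Fin 3) → ℝ) (v : V) : V :=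
  ∫ g, f g • R.ρ g v ∂μ3

lemma integrable_of_cont {W : Type} [NormedAddCommGroup W] [NormedSpace ℝ W]
    {F : SO (Fin 3) → W} (hF : Continuous F) : Integrable F μ3 := by
  exact hF.integrable_of_hasCompactSupport (HasCompactSupport.of_compactSpace F)

lemma rot_add (a b : Fin 3) (hab : a ≠ b) (s t : ℝ) :
    rot a b hab (s + t) = rot a b hab s * rot a b hab t :=
  Subtype.ext (rotMat_add hab s t)

lemma rot_zero (a b : Fin 3) (hab : a ≠ b) : rot a b hab 0 = 1 :=
  Subtype.ext (rotMat_zero a b)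

lemma rot_neg (a b : Fin 3) (hab : a ≠ b) (t : ℝ) :
    rot a b hab (-t) = (rot a b hab t)⁻¹ := by
  rw [eq_inv_iff_mul_eq_one, ← rot_add, neg_add_cancel, rot_zero]

/-- translate the Fourier coefficient. -/
lemma Phi_translate (R : SORep (Fin 3) V) (f : SO (Fin 3) → ℝ) (hf : Continuous f) (v : V)
    (h : SO (Fin 3)) :
    ∫ g, f (h * g) • R.ρ g v ∂μ3 = R.ρ h⁻¹ (Phi R f v) := by
  have h1 : ∫ g, f (h * g) • R.ρ g v ∂μ3 = ∫ g, (fun x => f x • R.ρ (h⁻¹ * x) v) (h * g) ∂μ3 := by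
    refine integral_congr_ae (ae_of_all _ fun g => ?_)
    simp
  rw [h1]
  refine (integral_mul_left_eq_self (μ := μ3) (fun x => f x • R.ρ (h⁻¹ * x) v) h).trans ?_
  have h2 : ∀ x, f x • R.ρ (h⁻¹ * x) v = (LinearMap.toContinuousLinearMap (R.ρ h⁻¹))
      (f x • R.ρ x v) := by
    intro x
    simp [map_mul]
  simp_rw [h2]
  have hi : Integrable (fun x => f x • R.ρ x v) μ3 := integrable_of_cont (hf.smul (R.cont v))
  exact ContinuousLinearMap.integral_comp_comm (LinearMap.toContinuousLinearMap (R.ρ h⁻¹)) hi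

/-- Integration by parts. -/
lemma ibp (R : SORep (Fin 3) V) (a b : Fin 3) (hab : a ≠ b) (f f' : SO (Fin 3) → ℝ)
    (hf : Continuous f) (hf' : Continuous f')
    (hd : ∀ g, HasDerivAt (fun t : ℝ => f (rot a b hab t * g)) (f' g) 0) (v : V) :
    Phi R f' v = - R.A a b (Phi R f v) := by
  -- derivative at every time
  have hd' : ∀ g (t : ℝ), HasDerivAt (fun t : ℝ => f (rot a b hab t * g))
      (f' (rot a b hab t * g)) t := by
    intro g t
    have h1 := hd (rot a b hab t * g)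
    have h2 : HasDerivAt (fun s : ℝ => f (rot a b hab (s - t) * (rot a b hab t * g)))
        (f' (rot a b hab t * g)) t := by
      have h3 : HasDerivAt (fun s : ℝ => s - t) 1 t := by
        simpa using (hasDerivAt_id t).sub_const t
      have h5 : HasDerivAt (fun s : ℝ => f (rot a b hab s * (rot a b hab t * g)))
        (f' (rot a b hab t * g)) (t - t) := by
        rw [sub_self]; exact h1
      have h6 := HasDerivAt.scomp (h := fun s : ℝ => s - t) t h5 h3
      rw [one_smul] at h6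
      exact h6
    refine h2.congr_of_eventuallyEq (Eventually.of_forall fun s => ?_)
    show f _ = f _
    congr 1
    rw [← mul_assoc, ← rot_add]
    congr 2
    ring
  obtain ⟨B, hB⟩ := (isCompact_range hf').isBounded.exists_norm_le
  have hB' : ∀ g, ‖f' g‖ ≤ B := fun g => hB _ ⟨g, rfl⟩
  have key := (hasDerivAt_integral_of_dominated_loc_of_deriv_le
    (μ := (μ3 : Measure (SO (Fin 3)))) (𝕜 := ℝ)
    (F := fun (t : ℝ) (g : SO (Fin 3)) => f (rot a b hab t * g) • R.ρ g v)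
    (F' := fun (t : ℝ) (g : SO (Fin 3)) => f' (rot a b hab t * g) • R.ρ g v)
    (x₀ := (0:ℝ)) (s := Set.univ) (bound := fun _ => B * ‖v‖) Filter.univ_mem
    (Eventually.of_forall fun t => ((hf.comp (continuous_const.mul continuous_id)).smul
      (R.cont v)).aestronglyMeasurable)
    (integrable_of_cont ((hf.comp (continuous_const.mul continuous_id)).smul (R.cont v)))
    (((hf'.comp (continuous_const.mul continuous_id)).smul
      (R.cont v)).aestronglyMeasurable)
    (ae_of_all _ fun g t _ => by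
      rw [norm_smul, R.norm_ρ]
      exact mul_le_mul_of_nonneg_right (hB' _) (norm_nonneg _))
    (integrable_const _)
    (ae_of_all _ fun g t _ => (hd' g t).smul_const _)).2
  have e1 : (fun t : ℝ => ∫ g, f (rot a b hab t * g) • R.ρ g v ∂μ3) =
      fun t : ℝ => R.ρ (rot a b hab (-t)) (Phi R f v) := by
    funext t
    rw [Phi_translate R f hf v, rot_neg]
  have e2 : ∫ g, f' (rot a b hab 0 * g) • R.ρ g v ∂μ3 = Phi R f' v := by
    rw [rot_zero]; simp [Phi]
  rw [e1, e2] at key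
  have hd2 : HasDerivAt (fun t : ℝ => R.ρ (rot a b hab (-t)) (Phi R f v))
      ((-1 : ℝ) • R.A a b (Phi R f v)) 0 := by
    have h3 : HasDerivAt (fun s : ℝ => -s) (-1) (0:ℝ) := hasDerivAt_neg' 0
    have h5 : HasDerivAt (fun s : ℝ => R.ρ (rot a b hab s) (Phi R f v))
        (R.A a b (Phi R f v)) (-0) := by
      rw [neg_zero]; exact R.deriv a b hab _
    exact HasDerivAt.scomp (h := fun s : ℝ => -s) (0:ℝ) h5 h3
  have := key.unique hd2
  rw [this]
  simp

/-- `X_{ab} x = y_{ab}/4`. -/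
lemma deriv_xv (a b : Fin 3) (hab : a ≠ b) (g : SO (Fin 3)) :
    HasDerivAt (fun t : ℝ => xv (rot a b hab t * g)) (yv a b g / 4) 0 := by
  have h1 : (fun t : ℝ => xv (rot a b hab t * g)) = fun t : ℝ =>
      xv g + ((Real.cos t - 1) * dv a b g + Real.sin t * yv a b g) / 4 := by
    funext t; exact xv_rot a b hab t g
  rw [h1]
  have h2 : HasDerivAt (fun t : ℝ => xv g + ((Real.cos t - 1) * dv a b g +
      Real.sin t * yv a b g) / 4) (0 + ((-Real.sin 0) * dv a b g + Real.cos 0 * yv a b g) / 4) 0 := by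
    refine (hasDerivAt_const _ _).add (HasDerivAt.div_const ?_ 4)
    exact (((Real.hasDerivAt_cos 0).sub_const 1).mul_const _).add
      ((Real.hasDerivAt_sin 0).mul_const _)
  simpa using h2

lemma deriv_yv (a b : Fin 3) (hab : a ≠ b) (g : SO (Fin 3)) :
    HasDerivAt (fun t : ℝ => yv a b (rot a b hab t * g)) (- dv a b g) 0 := by
  have h1 : (fun t : ℝ => yv a b (rot a b hab t * g)) = fun t : ℝ =>
      Real.cos t * yv a b g - Real.sin t * dv a b g := by
    funext t; exact yv_rot a b hab t g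
  rw [h1]
  have h2 : HasDerivAt (fun t : ℝ => Real.cos t * yv a b g - Real.sin t * dv a b g)
      ((-Real.sin 0) * yv a b g - Real.cos 0 * dv a b g) 0 :=
    (((Real.hasDerivAt_cos 0)).mul_const _).sub ((Real.hasDerivAt_sin 0).mul_const _)
  simpa using h2

/-- one plane, two derivatives. -/
lemma ibp2 (R : SORep (Fin 3) V) (a b : Fin 3) (hab : a ≠ b) (n : ℕ) (v : V) :
    Phi R (fun g => ((n + 1 : ℕ) : ℝ) * ((n : ℝ) * xv g ^ (n - 1) * (yv a b g) ^ 2 / 16 -
      xv g ^ n * dv a b g / 4)) v = R.A a b (R.A a b (Phi R (fun g => xv g ^ (n + 1)) v)) := by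
  have c1 := continuous_xv
  have c2 := continuous_yv a b
  have c3 := continuous_dv a b
  have s1 := ibp R a b hab (fun g => xv g ^ (n + 1))
    (fun g => ((n + 1 : ℕ) : ℝ) * xv g ^ n * (yv a b g / 4)) (c1.pow _)
    ((continuous_const.mul (c1.pow _)).mul (c2.div_const _))
    (fun g => by
      refine ((deriv_xv a b hab g).fun_pow (n + 1)).congr_deriv ?_
      simp [rot_zero]) v
  have s2 := ibp R a b hab (fun g => ((n + 1 : ℕ) : ℝ) * xv g ^ n * (yv a b g / 4))
    (fun g => ((n + 1 : ℕ) : ℝ) * ((n : ℝ) * xv g ^ (n - 1) * (yv a b g) ^ 2 / 16 -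
      xv g ^ n * dv a b g / 4))
    ((continuous_const.mul (c1.pow _)).mul (c2.div_const _))
    (continuous_const.mul ((((continuous_const.mul (c1.pow _)).mul (c2.pow 2)).div_const _).sub
      (((c1.pow _).mul c3).div_const _)))
    (fun g => by
      have h1 := ((deriv_xv a b hab g).fun_pow n)
      have h2 := (deriv_yv a b hab g).div_const 4
      have h3 := (h1.const_mul (((n + 1 : ℕ) : ℝ))).fun_mul h2
      refine h3.congr_deriv ?_
      simp only [rot_zero, one_mul]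
      ring) v
  rw [s2, s1]
  simp

/-- The Casimir recursion. -/
lemma phi_rec (R : SORep (Fin 3) V) (c : ℝ)
    (hcas : ∀ v, R.A 0 1 (R.A 0 1 v) + R.A 1 2 (R.A 1 2 v) + R.A 2 0 (R.A 2 0 v) = -c • v)
    (n : ℕ) (v : V) :
    (((n : ℝ) + 1) * ((n : ℝ) + 2) - c) • Phi R (fun g => xv g ^ (n + 1)) v =
      (((n : ℝ) + 1) * ((n : ℝ) + 1 / 2)) • Phi R (fun g => xv g ^ n) v := by
  have h01 := ibp2 R 0 1 (by decide) n v
  have h12 := ibp2 R 1 2 (by decide) n v
  have h20 := ibp2 R 2 0 (by decide) n v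
  have hc := hcas (Phi R (fun g => xv g ^ (n + 1)) v)
  rw [← h01, ← h12, ← h20] at hc
  have c1 := continuous_xv
  have cc : ∀ a b, Continuous (fun g => ((n + 1 : ℕ) : ℝ) * ((n : ℝ) * xv g ^ (n - 1) *
      (yv a b g) ^ 2 / 16 - xv g ^ n * dv a b g / 4)) := by
    intro a b
    have c2 := continuous_yv a b
    have c3 := continuous_dv a b
    exact (continuous_const.mul ((((continuous_const.mul (c1.pow _)).mul (c2.pow 2)).div_const _).sub
      (((c1.pow _).mul c3).div_const _)))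
  have hs : Phi R (fun g => ((n + 1 : ℕ) : ℝ) * ((n : ℝ) * xv g ^ (n - 1) *
      (yv 0 1 g) ^ 2 / 16 - xv g ^ n * dv 0 1 g / 4)) v +
      Phi R (fun g => ((n + 1 : ℕ) : ℝ) * ((n : ℝ) * xv g ^ (n - 1) *
      (yv 1 2 g) ^ 2 / 16 - xv g ^ n * dv 1 2 g / 4)) v +
      Phi R (fun g => ((n + 1 : ℕ) : ℝ) * ((n : ℝ) * xv g ^ (n - 1) *
      (yv 2 0 g) ^ 2 / 16 - xv g ^ n * dv 2 0 g / 4)) v =
      (((n : ℝ) + 1) * ((n : ℝ) + 1 / 2)) • Phi R (fun g => xv g ^ n) v -
      (((n : ℝ) + 1) * ((n : ℝ) + 2)) • Phi R (fun g => xv g ^ (n + 1)) v := by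
    have ic : ∀ a b, Integrable (fun g => (((n + 1 : ℕ) : ℝ) * ((n : ℝ) * xv g ^ (n - 1) *
        (yv a b g) ^ 2 / 16 - xv g ^ n * dv a b g / 4)) • R.ρ g v) μ3 :=
      fun a b => integrable_of_cont ((cc a b).smul (R.cont v))
    have ip : ∀ (m : ℕ) (r : ℝ), Integrable (fun g => r • (xv g ^ m • R.ρ g v)) μ3 :=
      fun m r => integrable_of_cont (((c1.pow m).smul (R.cont v)).const_smul r)
    simp only [Phi]
    have e1 := integral_add (ic 0 1) (ic 1 2)
    have e2 := integral_add ((ic 0 1).add (ic 1 2)) (ic 2 0)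
    have e3 := integral_sub (ip n (((n : ℝ) + 1) * ((n : ℝ) + 1 / 2)))
      (ip (n + 1) (((n : ℝ) + 1) * ((n : ℝ) + 2)))
    simp only [Pi.add_apply] at e2
    rw [← e1, ← e2, ← integral_smul, ← integral_smul, ← e3]
    refine integral_congr_ae (ae_of_all _ fun g => ?_)
    simp only [smul_smul, ← add_smul, ← sub_smul]
    congr 1
    have hy := sum_skew_sq g
    have hdv : dv 0 1 g + dv 1 2 g + dv 2 0 g = 2 * (4 * xv g - 1) := by
      rw [xv, trace3]; simp only [dv]; ring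
    have hy' : yv 0 1 g ^ 2 + yv 1 2 g ^ 2 + yv 2 0 g ^ 2 = 16 * xv g * (1 - xv g) := by
      simpa only [yv] using hy
    have e : (((n + 1 : ℕ) : ℝ) * ((n : ℝ) * xv g ^ (n - 1) * yv 0 1 g ^ 2 / 16 -
        xv g ^ n * dv 0 1 g / 4) + ((n + 1 : ℕ) : ℝ) * ((n : ℝ) * xv g ^ (n - 1) *
        yv 1 2 g ^ 2 / 16 - xv g ^ n * dv 1 2 g / 4) + ((n + 1 : ℕ) : ℝ) * ((n : ℝ) *
        xv g ^ (n - 1) * yv 2 0 g ^ 2 / 16 - xv g ^ n * dv 2 0 g / 4)) =
        ((n : ℝ) + 1) * ((n : ℝ) * xv g ^ (n - 1) * (yv 0 1 g ^ 2 + yv 1 2 g ^ 2 +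
          yv 2 0 g ^ 2) / 16 - xv g ^ n * (dv 0 1 g + dv 1 2 g + dv 2 0 g) / 4) := by
      push_cast; ring
    rw [e, hy', hdv]
    rcases Nat.eq_zero_or_pos n with h0 | h0
    · subst h0
      simp; ring
    · obtain ⟨m, rfl⟩ : ∃ m, n = m + 1 := ⟨n - 1, by omega⟩
      simp only [Nat.add_sub_cancel]
      push_cast
      ring
  rw [hs] at hc
  rw [sub_smul, ← sub_eq_zero] at *
  have : (((n : ℝ) + 1) * ((n : ℝ) + 2)) • Phi R (fun g => xv g ^ (n + 1)) v -
      c • Phi R (fun g => xv g ^ (n + 1)) v -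
      (((n : ℝ) + 1) * ((n : ℝ) + 1 / 2)) • Phi R (fun g => xv g ^ n) v =
      -((((n : ℝ) + 1) * ((n : ℝ) + 1 / 2)) • Phi R (fun g => xv g ^ n) v -
      (((n : ℝ) + 1) * ((n : ℝ) + 2)) • Phi R (fun g => xv g ^ (n + 1)) v -
      -c • Phi R (fun g => xv g ^ (n + 1)) v) := by
    module
  rw [this, hc, neg_zero]

end Pool.Agent.K3h56
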